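import Pool.Agent.P.MP_75e851_co.FewPos

/-!
The counting step: a bipartite family of `m` classes of size at least `D + 2`, with all degrees at
most `D` and every pair in at most `μ` classes, that has no full rainbow matching satisfies
`D ≤ 16 m^2 min μ m`.
-/

set_option autoImplicit false

namespace Pool.Agent.P.MP_75e851_co.Few

/-- The families that have large classes, small degrees, small multiplicities and no full
rainbow matching. -/
def Bad (D μ m : ℕ) : Prop :=
  ∃ (X Y : Type) (E : Fin m → Set (X × Y)), (∀ i, (E i).Finite) ∧ (∀ i, D + 2 ≤ (E i).ncard) ∧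
    (∀ x, ∑ i, {y | (x, y) ∈ E i}.ncard ≤ D) ∧ (∀ y, ∑ i, {x | (x, y) ∈ E i}.ncard ≤ D) ∧
    (∀ e, {i | e ∈ E i}.ncard ≤ μ) ∧
    ¬ ∃ f : Fin m → X × Y, (∀ i, f i ∈ E i) ∧ Function.Injective (fun i => (f i).1) ∧
      Function.Injective (fun i => (f i).2)

lemma lower {D μ m : ℕ} (h : Bad D μ m) : D ≤ 16 * m ^ 2 * min μ m := by
  classical
  obtain ⟨X, Y, E, hfin, hbig, hX, hY, hμ, hno⟩ := h
  have hm : 1 ≤ m := by
    rcases Nat.eq_zero_or_pos m with rfl | hm
    · exact absurd ⟨fun i => i.elim0, fun i => i.elim0, fun i => i.elim0, fun i => i.elim0⟩ hno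
    · exact hm
  have hne : ∀ i, ∃ e, e ∈ E i := fun i =>
    Set.nonempty_of_ncard_ne_zero (by have := hbig i; omega)
  choose e0 _ using hne
  let A : Fin m → Set ((X ⊕ Y) × (X ⊕ Y)) := fun i =>
    {p | ∃ e ∈ E i, p = (Sum.inl e.1, Sum.inr e.2) ∨ p = (Sum.inr e.2, Sum.inl e.1)}
  have hno' : ¬ ∃ f, Sel A Finset.univ f := by
    rintro ⟨f, h1, h2⟩
    choose g hg hg' using fun i => h1 i (Finset.mem_univ i)
    have t1 : ∀ i, Tch (f i) (Sum.inl (g i).1) := fun i => by
      rcases hg' i with h | h <;> rw [h] <;> simp [Tch]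
    have t2 : ∀ i, Tch (f i) (Sum.inr (g i).2) := fun i => by
      rcases hg' i with h | h <;> rw [h] <;> simp [Tch]
    refine hno ⟨g, hg, fun i j hij => ?_, fun i j hij => ?_⟩
    · by_contra hne
      refine h2 i (Finset.mem_univ _) j (Finset.mem_univ _) hne _ (t1 i) ?_
      simp only at hij
      rw [hij]
      exact t1 j
    · by_contra hne
      refine h2 i (Finset.mem_univ _) j (Finset.mem_univ _) hne _ (t2 i) ?_
      simp only at hij
      rw [hij]
      exact t2 j
  obtain ⟨T, C, U, hC, hU, hcov, hfew⟩ :=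
    structure_thm A (fun i => (Sum.inl (e0 i).1, Sum.inr (e0 i).2)) hno'
  rw [Fintype.card_fin] at hU hfew
  let F : Fin m → Finset (X × Y) := fun i => (hfin i).toFinset
  have hF : ∀ i e, e ∈ F i ↔ e ∈ E i := fun i e => Set.Finite.mem_toFinset _
  let tc : X ⊕ Y → X × Y → Prop := fun c e => c = Sum.inl e.1 ∨ c = Sum.inr e.2
  let Z : Finset (X × Y) :=
    (T.biUnion F).filter fun e => Sum.inl e.1 ∉ C ∧ Sum.inr e.2 ∉ C
  have hdeg : ∀ c, ∑ i ∈ T, ((F i).filter (tc c)).card ≤ D := by
    intro c
    refine le_trans (Finset.sum_le_sum_of_subset (Finset.subset_univ T)) ?_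
    rcases c with x | y
    · refine le_trans (Finset.sum_le_sum fun i _ => ?_) (hX x)
      have hf : {y | (x, y) ∈ E i}.Finite :=
        ((hfin i).image Prod.snd).subset fun y hy => ⟨(x, y), hy, rfl⟩
      rw [← Set.ncard_coe_finset]
      refine Set.ncard_le_ncard_of_injOn Prod.snd ?_ ?_ hf
      · intro e he
        simp only [Finset.coe_filter, Set.mem_ofPred_eq, tc, hF] at he
        obtain ⟨h1, h2 | h2⟩ := he
        · rw [Sum.inl.injEq] at h2
          subst h2
          exact h1
        · exact absurd h2 Sum.inl_ne_inr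
      · intro e he e' he' hee
        simp only [Finset.coe_filter, Set.mem_ofPred_eq, tc, hF] at he he'
        have a1 : x = e.1 := by simpa using he.2
        have a2 : x = e'.1 := by simpa using he'.2
        exact Prod.ext (a1.symm.trans a2) hee
    · refine le_trans (Finset.sum_le_sum fun i _ => ?_) (hY y)
      have hf : {x | (x, y) ∈ E i}.Finite :=
        ((hfin i).image Prod.fst).subset fun x hx => ⟨(x, y), hx, rfl⟩
      rw [← Set.ncard_coe_finset]
      refine Set.ncard_le_ncard_of_injOn Prod.fst ?_ ?_ hf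
      · intro e he
        simp only [Finset.coe_filter, Set.mem_ofPred_eq, tc, hF] at he
        obtain ⟨h1, h2 | h2⟩ := he
        · exact absurd h2 Sum.inr_ne_inl
        · rw [Sum.inr.injEq] at h2
          subst h2
          exact h1
      · intro e he e' he' hee
        simp only [Finset.coe_filter, Set.mem_ofPred_eq, tc, hF] at he he'
        have a1 : y = e.2 := by simpa using he.2
        have a2 : y = e'.2 := by simpa using he'.2
        exact Prod.ext hee (a1.symm.trans a2)
  have hmul : ∀ z, (T.filter fun i => z ∈ F i).card ≤ min μ m := by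
    intro z
    refine le_min ?_ ?_
    · refine le_trans ?_ (hμ z)
      rw [← Set.ncard_coe_finset]
      refine Set.ncard_le_ncard ?_ (Set.toFinite _)
      intro i hi
      simp only [Finset.coe_filter, Set.mem_ofPred_eq, hF] at hi
      exact hi.2
    · simpa using Finset.card_le_univ (T.filter fun i => z ∈ F i)
  have hZm : ∀ e ∈ Z, (∃ i ∈ T, e ∈ E i) ∧ Sum.inl e.1 ∉ C ∧ Sum.inr e.2 ∉ C := by
    intro e he
    simpa only [Z, Finset.mem_filter, Finset.mem_biUnion, hF] using he
  have hZu : ∀ u ∈ U \ C, (Z.filter (tc u)).card ≤ 5 * m + 3 := by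
    intro u hu
    obtain ⟨hu, huC⟩ := Finset.mem_sdiff.1 hu
    rcases u with x | y
    · refine le_trans (le_of_eq ?_)
        (hfew _ hu huC ((Z.filter (tc (Sum.inl x))).image fun e => Sum.inr e.2) ?_)
      · refine (Finset.card_image_of_injOn ?_).symm
        intro e he e' he' hee
        simp only [Finset.coe_filter, Set.mem_ofPred_eq, tc] at he he'
        have a1 : x = e.1 := by simpa using he.2
        have a2 : x = e'.1 := by simpa using he'.2
        exact Prod.ext (a1.symm.trans a2) (by simpa using hee)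
      · intro w hw
        obtain ⟨e, he, rfl⟩ := Finset.mem_image.1 hw
        obtain ⟨he, h2⟩ := Finset.mem_filter.1 he
        have a1 : x = e.1 := by simpa [tc] using h2
        obtain ⟨i, hi, hei⟩ := (hZm e he).1
        exact ⟨i, hi, e, hei, Or.inl (by rw [a1])⟩
    · refine le_trans (le_of_eq ?_)
        (hfew _ hu huC ((Z.filter (tc (Sum.inr y))).image fun e => Sum.inl e.1) ?_)
      · refine (Finset.card_image_of_injOn ?_).symm
        intro e he e' he' hee
        simp only [Finset.coe_filter, Set.mem_ofPred_eq, tc] at he he'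
        have a1 : y = e.2 := by simpa using he.2
        have a2 : y = e'.2 := by simpa using he'.2
        exact Prod.ext (by simpa using hee) (a1.symm.trans a2)
      · intro w hw
        obtain ⟨e, he, rfl⟩ := Finset.mem_image.1 hw
        obtain ⟨he, h2⟩ := Finset.mem_filter.1 he
        have a1 : y = e.2 := by simpa [tc] using h2
        obtain ⟨i, hi, hei⟩ := (hZm e he).1
        exact ⟨i, hi, e, hei, Or.inr (by rw [a1])⟩
  have hZ : Z.card ≤ 2 * m * (5 * m + 3) := by
    have hsub : Z ⊆ (U \ C).biUnion fun u => Z.filter (tc u) := by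
      intro e he
      obtain ⟨⟨i, hi, hei⟩, h1, h2⟩ := hZm e he
      rcases hcov i hi (Sum.inl e.1, Sum.inr e.2) ⟨e, hei, Or.inl rfl⟩ with h | h
      · exact Finset.mem_biUnion.2 ⟨_, Finset.mem_sdiff.2 ⟨h, h1⟩,
          Finset.mem_filter.2 ⟨he, Or.inl rfl⟩⟩
      · exact Finset.mem_biUnion.2 ⟨_, Finset.mem_sdiff.2 ⟨h, h2⟩,
          Finset.mem_filter.2 ⟨he, Or.inr rfl⟩⟩
    refine (Finset.card_le_card hsub).trans (Finset.card_biUnion_le.trans ?_)
    refine (Finset.sum_le_card_nsmul _ _ _ hZu).trans ?_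
    rw [smul_eq_mul]
    exact Nat.mul_le_mul_right _ ((Finset.card_le_card Finset.sdiff_subset).trans hU)
  have hone : ∀ i ∈ T, D + 2 ≤
      ∑ c ∈ C, ((F i).filter (tc c)).card + (Z.filter fun z => z ∈ F i).card := by
    intro i hi
    have h1 : (E i).ncard = (F i).card := Set.ncard_eq_toFinset_card _ (hfin i)
    have hsub : F i ⊆ (C.biUnion fun c => (F i).filter (tc c)) ∪ Z.filter fun z => z ∈ F i := by
      intro e he
      by_cases a1 : Sum.inl e.1 ∈ C
      · exact Finset.mem_union_left _ (Finset.mem_biUnion.2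
          ⟨_, a1, Finset.mem_filter.2 ⟨he, Or.inl rfl⟩⟩)
      by_cases a2 : Sum.inr e.2 ∈ C
      · exact Finset.mem_union_left _ (Finset.mem_biUnion.2
          ⟨_, a2, Finset.mem_filter.2 ⟨he, Or.inr rfl⟩⟩)
      exact Finset.mem_union_right _ (Finset.mem_filter.2 ⟨Finset.mem_filter.2
        ⟨Finset.mem_biUnion.2 ⟨i, hi, he⟩, a1, a2⟩, he⟩)
    have h2 := (Finset.card_le_card hsub).trans (Finset.card_union_le _ _)
    have h3 := Finset.card_biUnion_le (s := C) (t := fun c => (F i).filter (tc c))
    have h4 := hbig i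
    omega
  have hsum := Finset.sum_le_sum hone
  rw [Finset.sum_const, smul_eq_mul, Finset.sum_add_distrib, Finset.sum_comm] at hsum
  have b1 : ∑ c ∈ C, ∑ i ∈ T, ((F i).filter (tc c)).card ≤ C.card * D := by
    simpa using Finset.sum_le_card_nsmul C _ D fun c _ => hdeg c
  have b2 : ∑ i ∈ T, (Z.filter fun z => z ∈ F i).card ≤ Z.card * min μ m := by
    have : ∑ i ∈ T, (Z.filter fun z => z ∈ F i).card
        = ∑ z ∈ Z, (T.filter fun i => z ∈ F i).card := by
      simp only [Finset.card_filter]
      exact Finset.sum_comm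
    rw [this]
    simpa using Finset.sum_le_card_nsmul Z _ (min μ m) fun z _ => hmul z
  have b3 : Z.card * min μ m ≤ 16 * m ^ 2 * min μ m :=
    Nat.mul_le_mul_right _ (by nlinarith)
  have b4 : (C.card + 1) * (D + 2) ≤ T.card * (D + 2) := Nat.mul_le_mul_right _ hC
  nlinarith

end Pool.Agent.P.MP_75e851_co.Few
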