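import Pool.Agent.P.MP_75e851_co.FewCount

/-!
Families with few classes and no full rainbow matching.  Every pair of a class is either a pendant
pair at a centre or joins two centres.  There are `σ + 1` special classes, that use `σ` common
centres and all the pairs inside the groups of centres, and for each group of `2τ + 2` centres
there are `2τ + 1` classes of pendant pairs at these centres.
-/

set_option autoImplicit false

namespace Pool.Agent.P.MP_75e851_co.Few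

open Finset

lemma transfer {I X Y : Type} [Fintype I] {D μ : ℕ} (E : I → Set (X × Y))
    (h1 : ∀ i, (E i).Finite) (h2 : ∀ i, D + 2 ≤ (E i).ncard)
    (h3 : ∀ x, ∑ i, {y | (x, y) ∈ E i}.ncard ≤ D) (h4 : ∀ y, ∑ i, {x | (x, y) ∈ E i}.ncard ≤ D)
    (h5 : ∀ e, {i | e ∈ E i}.ncard ≤ μ)
    (h6 : ¬ ∃ f : I → X × Y, (∀ i, f i ∈ E i) ∧ Function.Injective (fun i => (f i).1) ∧
      Function.Injective (fun i => (f i).2)) : Bad D μ (Fintype.card I) := by
  let e : Fin (Fintype.card I) ≃ I := (Fintype.equivFin I).symm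
  refine ⟨X, Y, fun k => E (e k), fun k => h1 _, fun k => h2 _, fun x => ?_, fun y => ?_,
    fun p => ?_, ?_⟩
  · rw [Equiv.sum_comp e fun i => {y | (x, y) ∈ E i}.ncard]
    exact h3 x
  · rw [Equiv.sum_comp e fun i => {x | (x, y) ∈ E i}.ncard]
    exact h4 y
  · exact (Set.ncard_le_ncard_of_injOn e (fun k hk => hk) e.injective.injOn
      (Set.toFinite _)).trans (h5 p)
  · rintro ⟨f, a1, a2, a3⟩
    refine h6 ⟨fun i => f (e.symm i), fun i => ?_, a2.comp e.symm.injective,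
      a3.comp e.symm.injective⟩
    simpa using a1 (e.symm i)

lemma build {I CX CY : Type} [Fintype I] [Fintype CX] [Fintype CY] [DecidableEq I]
    (wX : CX → I → ℕ) (wY : CY → I → ℕ) (N : I → CX → CY → Prop)
    [∀ i c c', Decidable (N i c c')] {D μ : ℕ} (hD : 1 ≤ D) (hμ1 : 1 ≤ μ)
    (hbig : ∀ i, D + 2 ≤ #{p : CX × CY | N i p.1 p.2} + (∑ c, wX c i + ∑ c, wY c i))
    (hX : ∀ c, ∑ i, (#{c' | N i c c'} + wX c i) ≤ D)
    (hY : ∀ c, ∑ i, (#{c' | N i c' c} + wY c i) ≤ D)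
    (hμ : ∀ c c', #{i | N i c c'} ≤ μ)
    (hno : ∀ (a : I → CX → Prop) (b : I → CY → Prop), (∀ i j c, a i c → a j c → i = j) →
      (∀ i j c, b i c → b j c → i = j) →
      (∀ i, (∃ c c', a i c ∧ b i c' ∧ N i c c') ∨ (∃ c, a i c ∧ 0 < wX c i) ∨
        ∃ c, b i c ∧ 0 < wY c i) → False) : Bad D μ (Fintype.card I) := by
  classical
  let φ : (i : I) → ({p : CX × CY // N i p.1 p.2} ⊕ (Σ c, Fin (wX c i)) ⊕ (Σ c, Fin (wY c i))) →
      (CX ⊕ (CY × I × ℕ)) × (CY ⊕ (CX × I × ℕ)) := fun i z =>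
    match z with
    | .inl p => (.inl p.1.1, .inl p.1.2)
    | .inr (.inl z) => (.inl z.1, .inr (z.1, i, z.2))
    | .inr (.inr z) => (.inr (z.1, i, z.2), .inl z.1)
  have hinj : ∀ i, Function.Injective (φ i) := by
    rintro i (⟨⟨c, d⟩, hp⟩ | ⟨c, k⟩ | ⟨c, k⟩) (⟨⟨c', d'⟩, hp'⟩ | ⟨c', k'⟩ | ⟨c', k'⟩) h <;>
      simp only [φ, Prod.mk.injEq, Sum.inl.injEq, Sum.inr.injEq, reduceCtorEq, and_false,
        false_and] at h
    · obtain ⟨rfl, rfl⟩ := h
      rfl
    · obtain ⟨rfl, -, -, h⟩ := h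
      rw [Fin.ext h]
    · obtain ⟨⟨rfl, -, h⟩, -⟩ := h
      rw [Fin.ext h]
  have hmem : ∀ i x y, (x, y) ∈ Set.range (φ i) →
      (∃ c c', N i c c' ∧ x = .inl c ∧ y = .inl c') ∨
      (∃ c k, k < wX c i ∧ x = .inl c ∧ y = .inr (c, i, k)) ∨
      ∃ c k, k < wY c i ∧ x = .inr (c, i, k) ∧ y = .inl c := by
    rintro i x y ⟨⟨⟨c, d⟩, hp⟩ | ⟨c, k⟩ | ⟨c, k⟩, h⟩ <;> simp only [φ, Prod.mk.injEq] at h
    · exact Or.inl ⟨c, d, hp, h.1.symm, h.2.symm⟩
    · exact Or.inr (Or.inl ⟨c, k, k.2, h.1.symm, h.2.symm⟩)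
    · exact Or.inr (Or.inr ⟨c, k, k.2, h.1.symm, h.2.symm⟩)
  have hone : ∀ {β : Type} (s : I → Set β) (i' : I) (v : β),
      (∀ i w, w ∈ s i → i = i' ∧ w = v) → ∑ i, (s i).ncard ≤ D := by
    intro β s i' v hs
    refine le_trans ?_ hD
    rw [Finset.sum_eq_single i']
    · rw [← Set.ncard_singleton v]
      exact Set.ncard_le_ncard (fun w hw => (hs _ w hw).2) (Set.toFinite _)
    · intro i _ hi
      have : s i = ∅ := Set.eq_empty_of_forall_notMem fun w hw => hi (hs i w hw).1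
      rw [this, Set.ncard_empty]
    · simp
  have hsing : ∀ (s : Set I) (i' : I), (∀ i ∈ s, i = i') → s.ncard ≤ μ := by
    intro s i' hs
    refine le_trans ?_ hμ1
    rw [← Set.ncard_singleton i']
    exact Set.ncard_le_ncard hs (Set.toFinite _)
  refine transfer (fun i => Set.range (φ i)) (fun i => Set.finite_range _) (fun i => ?_) ?_ ?_ ?_ ?_
  · rw [Set.ncard_range_of_injective (hinj i), Nat.card_eq_fintype_card]
    simpa [Fintype.card_subtype] using hbig i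
  · rintro (c | ⟨c, i', k⟩)
    · refine le_trans (Finset.sum_le_sum fun i _ => ?_) (hX c)
      have hs : {y | (Sum.inl c, y) ∈ Set.range (φ i)} ⊆
          ((({c' | N i c c'} : Finset CY).image Sum.inl ∪
            (range (wX c i)).image fun k => Sum.inr (c, i, k) : Finset (CY ⊕ (CX × I × ℕ))) :
              Set _) := by
        intro y hy
        rcases hmem i _ y hy with ⟨a, a', h1, h2, rfl⟩ | ⟨a, k, h1, h2, rfl⟩ | ⟨a, k, h1, h2, -⟩
        · obtain rfl := Sum.inl.inj h2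
          simp [h1]
        · obtain rfl := Sum.inl.inj h2
          simp [h1]
        · exact absurd h2 Sum.inl_ne_inr
      refine (Set.ncard_le_ncard hs (Finset.finite_toSet _)).trans ?_
      rw [Set.ncard_coe_finset]
      refine (Finset.card_union_le _ _).trans (add_le_add Finset.card_image_le ?_)
      exact Finset.card_image_le.trans (by simp)
    · refine hone _ i' (Sum.inl c) fun i y hy => ?_
      rcases hmem i _ y hy with ⟨a, a', -, h2, -⟩ | ⟨a, k, -, h2, -⟩ | ⟨a, k, -, h2, rfl⟩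
      · exact absurd h2 Sum.inr_ne_inl
      · exact absurd h2 Sum.inr_ne_inl
      · simp only [Sum.inr.injEq, Prod.mk.injEq] at h2
        exact ⟨h2.2.1.symm, by rw [h2.1]⟩
  · rintro (c | ⟨c, i', k⟩)
    · refine le_trans (Finset.sum_le_sum fun i _ => ?_) (hY c)
      have hs : {x | (x, Sum.inl c) ∈ Set.range (φ i)} ⊆
          ((({c' | N i c' c} : Finset CX).image Sum.inl ∪
            (range (wY c i)).image fun k => Sum.inr (c, i, k) : Finset (CX ⊕ (CY × I × ℕ))) :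
              Set _) := by
        intro x hx
        rcases hmem i x _ hx with ⟨a, a', h1, rfl, h2⟩ | ⟨a, k, h1, -, h2⟩ | ⟨a, k, h1, rfl, h2⟩
        · obtain rfl := Sum.inl.inj h2
          simp [h1]
        · exact absurd h2 Sum.inl_ne_inr
        · obtain rfl := Sum.inl.inj h2
          simp [h1]
      refine (Set.ncard_le_ncard hs (Finset.finite_toSet _)).trans ?_
      rw [Set.ncard_coe_finset]
      refine (Finset.card_union_le _ _).trans (add_le_add Finset.card_image_le ?_)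
      exact Finset.card_image_le.trans (by simp)
    · refine hone _ i' (Sum.inl c) fun i x hx => ?_
      rcases hmem i x _ hx with ⟨a, a', -, -, h2⟩ | ⟨a, k, -, rfl, h2⟩ | ⟨a, k, -, -, h2⟩
      · exact absurd h2 Sum.inr_ne_inl
      · simp only [Sum.inr.injEq, Prod.mk.injEq] at h2
        exact ⟨h2.2.1.symm, by rw [h2.1]⟩
      · exact absurd h2 Sum.inr_ne_inl
  · rintro ⟨c | ⟨c, i', k⟩, c' | ⟨c', i'', k'⟩⟩
    · refine le_trans ?_ (hμ c c')
      rw [← Set.ncard_coe_finset]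
      refine Set.ncard_le_ncard (fun i hi => ?_) (Set.toFinite _)
      rcases hmem i _ _ hi with ⟨a, a', h1, h2, h3⟩ | ⟨a, k, -, -, h2⟩ | ⟨a, k, -, h2, -⟩
      · obtain rfl := Sum.inl.inj h2
        obtain rfl := Sum.inl.inj h3
        simp [h1]
      · exact absurd h2 Sum.inl_ne_inr
      · exact absurd h2 Sum.inl_ne_inr
    · refine hsing _ i'' fun i hi => ?_
      rcases hmem i _ _ hi with ⟨a, a', -, -, h2⟩ | ⟨a, k, -, -, h2⟩ | ⟨a, k, -, -, h2⟩
      · exact absurd h2 Sum.inr_ne_inl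
      · simp only [Sum.inr.injEq, Prod.mk.injEq] at h2
        exact h2.2.1.symm
      · exact absurd h2 Sum.inr_ne_inl
    · refine hsing _ i' fun i hi => ?_
      rcases hmem i _ _ hi with ⟨a, a', -, h2, -⟩ | ⟨a, k, -, h2, -⟩ | ⟨a, k, -, h2, -⟩
      · exact absurd h2 Sum.inr_ne_inl
      · exact absurd h2 Sum.inr_ne_inl
      · simp only [Sum.inr.injEq, Prod.mk.injEq] at h2
        exact h2.2.1.symm
    · refine hsing _ i' fun i hi => ?_
      rcases hmem i _ _ hi with ⟨a, a', -, h2, -⟩ | ⟨a, k, -, h2, -⟩ | ⟨a, k, -, -, h2⟩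
      · exact absurd h2 Sum.inr_ne_inl
      · exact absurd h2 Sum.inr_ne_inl
      · exact absurd h2 Sum.inr_ne_inl
  · rintro ⟨f, a1, a2, a3⟩
    refine hno (fun i c => (f i).1 = .inl c) (fun i c => (f i).2 = .inl c)
      (fun i j c h h' => a2 (h.trans h'.symm)) (fun i j c h h' => a3 (h.trans h'.symm)) fun i => ?_
    rcases hmem i (f i).1 (f i).2 (a1 i) with
      ⟨a, a', h1, h2, h3⟩ | ⟨a, k, h1, h2, -⟩ | ⟨a, k, h1, -, h2⟩
    · exact Or.inl ⟨a, a', h2, h3, h1⟩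
    · exact Or.inr (Or.inl ⟨a, h2, by omega⟩)
    · exact Or.inr (Or.inr ⟨a, h2, by omega⟩)

lemma family (σ τ g q d : ℕ) {D μ : ℕ} (hD : 1 ≤ D) (hμ : σ + 1 ≤ μ)
    (h1 : D + 2 ≤ g * (τ + 1) ^ 2 + σ * q) (h2 : (σ + 1) * q ≤ D)
    (h3 : D + 2 ≤ 2 * (τ + 1) * d) (h4 : (σ + 1) * (τ + 1) + (2 * τ + 1) * d ≤ D) :
    Bad D μ (σ + 1 + g * (2 * τ + 1)) := by
  classical
  have e1 : ∀ (n c : ℕ) (j : Fin g),
      ∑ x : Fin g, ∑ _y : Fin n, (if j = x then c else 0) = n * c := by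
    intro n c j
    rw [Finset.sum_comm]
    simp
  have e2 : ∀ (n c : ℕ) (j : Fin g),
      ∑ x : Fin g, ∑ _y : Fin n, (if x = j then c else 0) = n * c := by
    intro n c j
    rw [Finset.sum_comm]
    simp
  have key := build (I := Fin (σ + 1) ⊕ (Fin g × Fin (2 * τ + 1)))
    (CX := Fin σ ⊕ (Fin g × Fin (τ + 1))) (CY := Fin g × Fin (τ + 1))
    (fun c i => Sum.elim (fun _ => Sum.elim (fun _ => q) (fun _ => 0) i)
      (fun c => Sum.elim (fun _ => 0) (fun i => if c.1 = i.1 then d else 0) i) c)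
    (fun c i => Sum.elim (fun _ => 0) (fun i => if c.1 = i.1 then d else 0) i)
    (fun i c c' => i.isLeft = true ∧ ∃ u, c = Sum.inr (c'.1, u))
    (D := D) (μ := μ) hD (by omega) ?_ ?_ ?_ ?_ ?_
  · simpa using key
  · rintro (k | ⟨j, l⟩)
    · simp only [Finset.card_filter, Fintype.sum_prod_type, Fintype.sum_sum_type]
      simp
      nlinarith
    · simp only [Finset.card_filter, Fintype.sum_prod_type, Fintype.sum_sum_type]
      simp [e2]
      nlinarith
  · rintro (k | ⟨j, l⟩)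
    · simp only [Finset.card_filter, Fintype.sum_prod_type, Fintype.sum_sum_type]
      simp
      nlinarith
    · simp only [Finset.card_filter, Fintype.sum_prod_type, Fintype.sum_sum_type]
      simp [e1]
      nlinarith
  · rintro ⟨j, l⟩
    simp only [Finset.card_filter, Fintype.sum_prod_type, Fintype.sum_sum_type]
    simp [e1]
    nlinarith
  · intro c c'
    simp only [Finset.card_filter, Fintype.sum_prod_type, Fintype.sum_sum_type]
    rcases c with k | ⟨j, l⟩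
    · simp
    · by_cases h : j = c'.1 <;> simp [h, hμ]
  · intro a b ha hb h
    by_cases hall : ∀ k, ∃ c, a (Sum.inl k) (Sum.inl c)
    · choose c hc using hall
      have hinj : Function.Injective c := fun k k' e =>
        Sum.inl.inj (ha _ _ _ (hc k) (e ▸ hc k'))
      have := Fintype.card_le_of_injective c hinj
      simp at this
    push Not at hall
    obtain ⟨k, hk⟩ := hall
    obtain ⟨j, u, v, hu, hv⟩ : ∃ j u v, a (Sum.inl k) (Sum.inr (j, u)) ∧ b (Sum.inl k) (j, v) := by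
      rcases h (Sum.inl k) with ⟨c | ⟨j, u⟩, ⟨j', v⟩, a1, a2, a3⟩ | ⟨c | c, a1, a2⟩ | ⟨c, a1, a2⟩
      · exact absurd a1 (hk c)
      · obtain rfl : j = j' := by simpa using a3
        exact ⟨j, u, v, a1, a2⟩
      · exact absurd a1 (hk c)
      · simp at a2
      · simp at a2
    have hall : ∀ l : Fin (2 * τ + 1), ∃ z : Fin (τ + 1) ⊕ Fin (τ + 1),
        Sum.elim (fun w => a (Sum.inr (j, l)) (Sum.inr (j, w)))
          (fun w => b (Sum.inr (j, l)) (j, w)) z := by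
      intro l
      rcases h (Sum.inr (j, l)) with ⟨c, c', -, -, a3⟩ | ⟨c | ⟨j', w⟩, a1, a2⟩ | ⟨⟨j', w⟩, a1, a2⟩
      · simp at a3
      · simp at a2
      · obtain rfl : j' = j := by
          by_contra hne
          simp [hne] at a2
        exact ⟨Sum.inl w, a1⟩
      · obtain rfl : j' = j := by
          by_contra hne
          simp [hne] at a2
        exact ⟨Sum.inr w, a1⟩
    choose z hz using hall
    have hle := Finset.card_le_card_of_injOn (s := Finset.univ)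
      (t := (Finset.univ.erase (Sum.inl u)).erase (Sum.inr v)) z ?_ ?_
    · rw [Finset.card_erase_of_mem (by simp), Finset.card_erase_of_mem (by simp)] at hle
      simp at hle
      omega
    · intro l _
      have := hz l
      simp only [Finset.coe_erase, Finset.coe_univ, Set.mem_sdiff, Set.mem_univ,
        Set.mem_singleton_iff, true_and]
      constructor
      · intro e
        rw [e] at this
        exact absurd (ha _ _ _ hu this) Sum.inl_ne_inr
      · intro e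
        rw [e] at this
        exact absurd (hb _ _ _ hv this) Sum.inl_ne_inr
    · intro l _ l' _ e
      have b1 := hz l
      have b2 := hz l'
      rw [← e] at b2
      rcases hzl : z l with w | w <;> rw [hzl] at b1 b2
      · simpa using ha _ _ _ b1 b2
      · simpa using hb _ _ _ b1 b2

lemma param {D μ s t : ℕ} (hs : 1 ≤ s) (ht : 1 ≤ t) (hμ : s ≤ μ) (h1 : s * (s + 1) ≤ D)
    (h2 : 2 * (s + 4) * t ^ 2 ≤ D) (h3 : D < 2 * (s + 4) * (t + 1) ^ 2) :
    ∃ m ≤ s + 160 * t, Bad D μ m := by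
  obtain ⟨σ, rfl⟩ : ∃ σ, s = σ + 1 := ⟨s - 1, by omega⟩
  obtain ⟨τ, rfl⟩ : ∃ τ, t = τ + 1 := ⟨t - 1, by omega⟩
  have q1 : (σ + 1) * (D / (σ + 1)) ≤ D := Nat.mul_div_le _ _
  have q2 : D < (σ + 1) * (D / (σ + 1) + 1) := Nat.lt_mul_div_succ _ (by omega)
  have q3 : σ + 1 + 1 ≤ D / (σ + 1) := (Nat.le_div_iff_mul_le (by omega)).2 (by nlinarith)
  have r1 : 2 * (τ + 1) * (D / (2 * (τ + 1))) ≤ D := Nat.mul_div_le _ _
  have r2 : D < 2 * (τ + 1) * (D / (2 * (τ + 1)) + 1) := Nat.lt_mul_div_succ _ (by omega)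
  have r3 : (σ + 1 + 4) * (τ + 1) ≤ D / (2 * (τ + 1)) :=
    (Nat.le_div_iff_mul_le (by omega)).2 (by nlinarith)
  generalize D / (σ + 1) = q at q1 q2 q3
  generalize D / (2 * (τ + 1)) = r at r1 r2 r3
  have q4 : q < 40 * (τ + 1) ^ 2 := by
    refine Nat.lt_of_mul_lt_mul_left (a := σ + 1) ?_
    have a1 : (τ + 1 + 1) ^ 2 ≤ 4 * (τ + 1) ^ 2 := by nlinarith
    have a2 : 2 * (σ + 1 + 4) * (τ + 1 + 1) ^ 2 ≤ (10 * (σ + 1)) * (4 * (τ + 1) ^ 2) :=
      Nat.mul_le_mul (by omega) a1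
    nlinarith
  exact ⟨_, by omega, family σ τ 80 q (r + 2) (by nlinarith) hμ (by nlinarith) q1 (by nlinarith)
    (by nlinarith)⟩

lemma upper {D μ : ℕ} (hD : 4 ≤ D) (hμ : 1 ≤ μ) :
    ∃ m, Bad D μ m ∧ m ^ 2 * min μ m ≤ 5000000 * D := by
  by_cases hsm : D < 27
  · obtain ⟨d, rfl⟩ : ∃ d, D = d + 1 := ⟨D - 1, by omega⟩
    refine ⟨_, family 0 0 (d + 3) 0 d (by omega) hμ (by omega) (by omega) (by omega) (by omega),
      ?_⟩
    have a1 : (0 + 1 + (d + 3) * (2 * 0 + 1)) ^ 2 ≤ 30 ^ 2 := Nat.pow_le_pow_left (by omega) 2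
    have a2 : min μ (0 + 1 + (d + 3) * (2 * 0 + 1)) ≤ 30 := (min_le_right _ _).trans (by omega)
    have := Nat.mul_le_mul a1 a2
    omega
  have hex : ∃ s, D < (s + 1) ^ 3 := ⟨D, by nlinarith [Nat.zero_le (D ^ 2), Nat.zero_le (D ^ 3)]⟩
  have c1 := Nat.find_spec hex
  have c2 : ∀ s < Nat.find hex, ¬ D < (s + 1) ^ 3 := fun s hs => Nat.find_min hex hs
  generalize Nat.find hex = s0 at c1 c2
  have c3 : 3 ≤ s0 := by
    by_contra hc
    have : (s0 + 1) ^ 3 ≤ 3 ^ 3 := Nat.pow_le_pow_left (by omega) 3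
    omega
  have c4 : s0 ^ 3 ≤ D := by
    have := c2 (s0 - 1) (by omega)
    rw [Nat.sub_add_cancel (by omega)] at this
    omega
  have main : ∀ s, 1 ≤ s → s ≤ s0 → s ≤ μ →
      ∃ m t, m ≤ s + 160 * t ∧ Bad D μ m ∧ 2 * (s + 4) * t ^ 2 ≤ D := by
    intro s h1 h2 h3
    have b0 : 0 < 2 * (s + 4) := by omega
    have b1 : 2 * (s + 4) * Nat.sqrt (D / (2 * (s + 4))) ^ 2 ≤ D :=
      (Nat.mul_le_mul_left _ (Nat.sqrt_le' _)).trans (Nat.mul_div_le _ _)
    have b2 : D < 2 * (s + 4) * (Nat.sqrt (D / (2 * (s + 4))) + 1) ^ 2 :=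
      (Nat.lt_mul_div_succ _ b0).trans_le (Nat.mul_le_mul_left _ (Nat.lt_succ_sqrt' _))
    generalize Nat.sqrt (D / (2 * (s + 4))) = t at b1 b2
    have b3 : 9 * s0 ≤ s0 ^ 3 := by nlinarith [Nat.mul_le_mul c3 c3]
    have b4 : 1 ≤ t := by
      by_contra hc
      obtain rfl : t = 0 := by omega
      omega
    have b5 : s * (s + 1) ≤ D := by
      have : s * (s + 1) ≤ s0 * (s0 + 1) := Nat.mul_le_mul h2 (by omega)
      nlinarith [Nat.mul_le_mul c3 c3]
    obtain ⟨m, hm, hb⟩ := param h1 b4 h3 b5 b1 b2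
    exact ⟨m, t, hm, hb, b1⟩
  by_cases hc : μ ≤ s0
  · obtain ⟨m, t, hm, hb, ht⟩ := main μ hμ hc le_rfl
    refine ⟨m, hb, ?_⟩
    have a1 : m ^ 2 * min μ m ≤ (μ + 160 * t) ^ 2 * μ :=
      Nat.mul_le_mul (Nat.pow_le_pow_left hm 2) (min_le_left _ _)
    have a2 : μ ^ 3 ≤ s0 ^ 3 := Nat.pow_le_pow_left hc 3
    have a3 : (μ + 160 * t) ^ 2 ≤ 2 * μ ^ 2 + 2 * (160 * t) ^ 2 := by
      nlinarith [sq_nonneg ((μ : ℤ) - 160 * t)]
    have a4 := Nat.mul_le_mul_right μ a3
    nlinarith [Nat.zero_le (t ^ 2)]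
  · obtain ⟨m, t, hm, hb, ht⟩ := main s0 (by omega) le_rfl (by omega)
    refine ⟨m, hb, ?_⟩
    have a0 : t ≤ s0 := by
      by_contra hc'
      have a : (s0 + 1) ^ 2 ≤ t ^ 2 := Nat.pow_le_pow_left (by omega) 2
      have b : (s0 + 1) * (s0 + 1) ^ 2 ≤ 2 * (s0 + 4) * t ^ 2 := Nat.mul_le_mul (by omega) a
      nlinarith
    have a1 : m ≤ 161 * s0 := by omega
    have a2 : m ^ 2 * min μ m ≤ (161 * s0) ^ 2 * (161 * s0) :=
      Nat.mul_le_mul (Nat.pow_le_pow_left a1 2) ((min_le_right _ _).trans a1)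
    nlinarith

lemma least {D μ : ℕ} (hD : 4 ≤ D) (hμ : 1 ≤ μ) :
    ∃ m, IsLeast {m | Bad D μ m} m ∧ D ≤ 16 * m ^ 2 * min μ m ∧
      m ^ 2 * min μ m ≤ 5000000 * D := by
  classical
  obtain ⟨m, hm, hb⟩ := upper hD hμ
  have hex : ∃ m, Bad D μ m := ⟨m, hm⟩
  have hle : Nat.find hex ≤ m := Nat.find_min' hex hm
  refine ⟨Nat.find hex, ⟨Nat.find_spec hex, fun k hk => Nat.find_min' hex hk⟩,
    lower (Nat.find_spec hex), le_trans ?_ hb⟩
  exact Nat.mul_le_mul (Nat.pow_le_pow_left hle 2) (min_le_min_left _ hle)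

end Pool.Agent.P.MP_75e851_co.Few
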