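import Mathlib

/-!
Full rainbow matchings for few classes.  A family of `m` classes of pairs, with all degrees at most
`D`, every pair in at most `μ` classes and every class of size at least `D`, has a full rainbow
matching as soon as `D > 32 m^2 μ`.  The proof uses a robust augmenting closure twice: the first
use gives a set of at most `2m` vertices that covers all the pairs of a subfamily, the second one
gives a set of classes that violates the Hall condition with respect to these vertices.
-/

set_option autoImplicit false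

namespace Pool.Agent.P.MP_75e851_co.Few

variable {V I : Type}

/-- The vertex `v` is an end of the pair `e`. -/
def Tch (e : V × V) (v : V) : Prop := v = e.1 ∨ v = e.2

/-- The vertex `v` is an end of one of the selected pairs. -/
def On (J : Finset I) (f : I → V × V) (v : V) : Prop := ∃ i ∈ J, Tch (f i) v

/-- A rainbow matching for the classes in `J`. -/
def Sel (A : I → Set (V × V)) (J : Finset I) (f : I → V × V) : Prop :=
  (∀ i ∈ J, f i ∈ A i) ∧ ∀ i ∈ J, ∀ j ∈ J, i ≠ j → ∀ v, Tch (f i) v → ¬ Tch (f j) v

lemma Sel.mono {A : I → Set (V × V)} {J J' : Finset I} {f : I → V × V} (h : Sel A J f)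
    (hJ : J' ⊆ J) : Sel A J' f :=
  ⟨fun i hi => h.1 i (hJ hi), fun i hi j hj => h.2 i (hJ hi) j (hJ hj)⟩

lemma Sel.update [DecidableEq I] {A : I → Set (V × V)} {Q : Finset I} {f : I → V × V} {i : I}
    (h : Sel A (Q.erase i) f) {e : V × V} (he : e ∈ A i)
    (hfree : ∀ v, Tch e v → ¬ On (Q.erase i) f v) : Sel A Q (Function.update f i e) := by
  constructor
  · intro k hk
    by_cases hki : k = i
    · subst hki; simpa using he
    · rw [Function.update_of_ne hki]
      exact h.1 k (Finset.mem_erase.2 ⟨hki, hk⟩)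
  · intro k hk l hl hkl v hv hv'
    by_cases hki : k = i
    · subst hki
      rw [Function.update_self] at hv
      rw [Function.update_of_ne (Ne.symm hkl)] at hv'
      exact hfree v hv ⟨l, Finset.mem_erase.2 ⟨Ne.symm hkl, hl⟩, hv'⟩
    · rw [Function.update_of_ne hki] at hv
      by_cases hli : l = i
      · subst hli
        rw [Function.update_self] at hv'
        exact hfree v hv' ⟨k, Finset.mem_erase.2 ⟨hki, hk⟩, hv⟩
      · rw [Function.update_of_ne hli] at hv'
        exact h.2 k (Finset.mem_erase.2 ⟨hki, hk⟩) l (Finset.mem_erase.2 ⟨hli, hl⟩) hkl v hv hv'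

/-- Either all the classes of `P` have a rainbow matching, or some rainbow matching of a part of
them cannot be changed into one that contains a further class. -/
lemma max_sel [DecidableEq I] (A : I → Set (V × V)) (f0 : I → V × V) (P : Finset I) :
    (∃ f, Sel A P f) ∨ ∃ J ⊆ P, ∃ f, ∃ i0 ∈ P, i0 ∉ J ∧ Sel A J f ∧
      ¬ ∃ f', Sel A (insert i0 J) f' := by
  induction P using Finset.induction_on with
  | empty => exact Or.inl ⟨f0, by simp [Sel]⟩
  | insert a P ha ih =>
    rcases ih with ⟨f, hf⟩ | ⟨J, hJ, f, i0, hi0, h1, h2, h3⟩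
    · by_cases h : ∃ f', Sel A (insert a P) f'
      · exact Or.inl h
      · exact Or.inr ⟨P, Finset.subset_insert _ _, f, a, Finset.mem_insert_self _ _, ha, hf, h⟩
    · exact Or.inr ⟨J, hJ.trans (Finset.subset_insert _ _), f, i0,
        Finset.mem_insert_of_mem hi0, h1, h2, h3⟩

/-- The robust augmenting closure. -/
lemma closure [DecidableEq I] {A : I → Set (V × V)} {J : Finset I} {f : I → V × V} {i0 : I}
    (hi0 : i0 ∉ J) (hf : Sel A J f) (hmax : ¬ ∃ f', Sel A (insert i0 J) f') :
    ∃ S ⊆ insert i0 J, i0 ∈ S ∧ (∀ i ∈ S, ∀ e ∈ A i, On J f e.1 ∨ On J f e.2) ∧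
      ∀ j ∈ J, j ∉ S → ∀ v, Tch (f j) v → ∀ W : Finset V,
        (∀ w ∈ W, ¬ On J f w ∧ ∃ i ∈ S, (v, w) ∈ A i) → W.card < J.card + 3 := by
  classical
  set Q := insert i0 J with hQ
  let Good : Finset I → Prop := fun S => i0 ∈ S ∧ ∀ j ∈ S, ∀ Φ : Finset V,
    Φ.card + S.card ≤ J.card + 3 → ∃ f', Sel A (Q.erase j) f' ∧ (∀ i ∈ J, i ∉ S → f' i = f i) ∧
      ∀ v, On (Q.erase j) f' v → On J f v ∨ v ∉ Φ
  have hbase : Good {i0} := by
    refine ⟨Finset.mem_singleton_self _, fun j hj Φ _ => ?_⟩
    rw [Finset.mem_singleton.1 hj, hQ, Finset.erase_insert hi0]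
    exact ⟨f, hf, fun _ _ _ => rfl, fun v hv => Or.inl hv⟩
  obtain ⟨S, hS, hSmax⟩ := Finset.exists_max_image (Q.powerset.filter Good) Finset.card
    ⟨{i0}, Finset.mem_filter.2 ⟨by simp [hQ], hbase⟩⟩
  obtain ⟨hSQ, hS0, hSg⟩ := Finset.mem_filter.1 hS
  rw [Finset.mem_powerset] at hSQ
  have hcard : S.card ≤ J.card + 1 := by
    have := Finset.card_le_card hSQ
    rw [hQ, Finset.card_insert_of_notMem hi0] at this
    exact this
  refine ⟨S, hSQ, hS0, ?_, ?_⟩
  · intro i hi e he
    by_contra hcon
    push Not at hcon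
    have h2 : ({e.1, e.2} : Finset V).card ≤ 2 := Finset.card_le_two
    obtain ⟨f', h1, -, h3⟩ := hSg i hi {e.1, e.2} (by omega)
    refine hmax ⟨_, h1.update he ?_⟩
    intro v hv hon
    rcases h3 v hon with h | h
    · rcases hv with rfl | rfl
      · exact hcon.1 h
      · exact hcon.2 h
    · rcases hv with rfl | rfl <;> simp at h
  · intro j hj hjS v hv W hW
    by_contra hK
    push Not at hK
    have hjQ : j ∈ Q := Finset.mem_insert_of_mem hj
    have hgood : Good (insert j S) := by
      refine ⟨Finset.mem_insert_of_mem hS0, fun k hk Φ hΦ => ?_⟩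
      rw [Finset.card_insert_of_notMem hjS] at hΦ
      rcases Finset.mem_insert.1 hk with rfl | hk
      · obtain ⟨w, hwW, hwΦ⟩ : ∃ w ∈ W, w ∉ Φ := by
          by_contra hc
          push Not at hc
          have := Finset.card_le_card (show W ⊆ Φ from hc)
          omega
        obtain ⟨hwon, i, hi, hvw⟩ := hW w hwW
        have hik : i ≠ k := fun h => hjS (h ▸ hi)
        obtain ⟨f', h1, h2, h3⟩ := hSg i hi (insert w Φ)
          (by rw [Finset.card_insert_of_notMem hwΦ]; omega)
        have hsub : (Q.erase k).erase i ⊆ Q.erase i :=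
          Finset.erase_subset_erase _ (Finset.erase_subset _ _)
        refine ⟨Function.update f' i (v, w), (h1.mono hsub).update hvw ?_, ?_, ?_⟩
        · rintro u (rfl | rfl) ⟨l, hl, hul⟩
          · have hlk : l ≠ k := (Finset.mem_erase.1 (Finset.mem_erase.1 hl).2).1
            refine h1.2 k (Finset.mem_erase.2 ⟨hik.symm, hjQ⟩) l (hsub hl) hlk.symm u ?_ hul
            rw [h2 k hj hjS]
            exact hv
          · rcases h3 _ ⟨l, hsub hl, hul⟩ with h | h
            · exact hwon h
            · exact h (Finset.mem_insert_self _ _)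
        · intro l hl hlS
          have hli : l ≠ i := fun h => hlS (Finset.mem_insert_of_mem (h ▸ hi))
          rw [Function.update_of_ne hli]
          exact h2 l hl fun h => hlS (Finset.mem_insert_of_mem h)
        · rintro u ⟨l, hl, hul⟩
          by_cases hli : l = i
          · subst hli
            rw [Function.update_self] at hul
            rcases hul with rfl | rfl
            · exact Or.inl ⟨k, hj, hv⟩
            · exact Or.inr hwΦ
          · rw [Function.update_of_ne hli] at hul
            rcases h3 u ⟨l, Finset.mem_erase.2 ⟨hli, (Finset.mem_erase.1 hl).2⟩, hul⟩ with h | h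
            · exact Or.inl h
            · exact Or.inr fun h' => h (Finset.mem_insert_of_mem h')
      · obtain ⟨f', h1, h2, h3⟩ := hSg k hk Φ (by omega)
        exact ⟨f', h1, fun i hi hiS => h2 i hi fun h => hiS (Finset.mem_insert_of_mem h), h3⟩
    have := hSmax (insert j S) (Finset.mem_filter.2
      ⟨Finset.mem_powerset.2 (Finset.insert_subset hjQ hSQ), hgood⟩)
    rw [Finset.card_insert_of_notMem hjS] at this
    omega

lemma card_on_le {J : Finset I} {f : I → V × V} (W : Finset V) (hW : ∀ w ∈ W, On J f w) :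
    W.card ≤ 2 * J.card := by
  classical
  have h : W ⊆ J.image (fun i => (f i).1) ∪ J.image (fun i => (f i).2) := by
    intro w hw
    obtain ⟨i, hi, h | h⟩ := hW w hw
    · exact Finset.mem_union_left _ (Finset.mem_image.2 ⟨i, hi, h.symm⟩)
    · exact Finset.mem_union_right _ (Finset.mem_image.2 ⟨i, hi, h.symm⟩)
  have h1 := Finset.card_le_card h
  have h2 := Finset.card_union_le (J.image fun i => (f i).1) (J.image fun i => (f i).2)
  have h3 := Finset.card_image_le (s := J) (f := fun i => (f i).1)
  have h4 := Finset.card_image_le (s := J) (f := fun i => (f i).2)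
  omega

/-- The structure of a family without a full rainbow matching: a set `T` of classes, fewer than
`|T|` centres, and a small set `U` of vertices that meets every pair of the classes in `T`, whose
members other than the centres have few neighbours in these classes. -/
lemma structure_thm [DecidableEq I] [Fintype I] (A : I → Set (V × V)) (f0 : I → V × V)
    (hno : ¬ ∃ f, Sel A Finset.univ f) :
    ∃ (T : Finset I) (C U : Finset V), C.card + 1 ≤ T.card ∧ U.card ≤ 2 * Fintype.card I ∧
      (∀ i ∈ T, ∀ e ∈ A i, e.1 ∈ U ∨ e.2 ∈ U) ∧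
      ∀ u ∈ U, u ∉ C → ∀ W : Finset V, (∀ w ∈ W, ∃ i ∈ T, (u, w) ∈ A i) →
        W.card ≤ 5 * Fintype.card I + 3 := by
  classical
  obtain h | ⟨J, -, f, i0, -, hi0, hf, hmax⟩ := max_sel A f0 Finset.univ
  · exact absurd h hno
  obtain ⟨S, hSQ, hS0, hcov, hfew⟩ := closure hi0 hf hmax
  let A' : I → Set (V × V) := fun i =>
    {p | p ∈ A i ∧ On J f p.1 ∧ ¬ On (J \ S) f p.1 ∧ ¬ On J f p.2}
  obtain ⟨f', hf'⟩ | ⟨J', hJ'S, f', i1, hi1S, hi1, hf', hmax'⟩ := max_sel A' f0 S
  · exfalso
    refine hmax ⟨fun i => if i ∈ S then f' i else f i, ?_, ?_⟩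
    · intro i hi
      by_cases h : i ∈ S
      · simp only [h, if_true]; exact (hf'.1 i h).1
      · simp only [h, if_false]
        rcases Finset.mem_insert.1 hi with rfl | hi
        · exact absurd hS0 h
        · exact hf.1 i hi
    · have hmix : ∀ i ∈ S, ∀ j ∈ insert i0 J, j ∉ S → ∀ v, Tch (f' i) v → ¬ Tch (f j) v := by
        intro i hi j hj hjS v hv hv'
        have hjJ : j ∈ J := by
          rcases Finset.mem_insert.1 hj with rfl | hj
          · exact absurd hS0 hjS
          · exact hj
        obtain ⟨-, -, h2, h3⟩ := hf'.1 i hi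
        rcases hv with rfl | rfl
        · exact h2 ⟨j, Finset.mem_sdiff.2 ⟨hjJ, hjS⟩, hv'⟩
        · exact h3 ⟨j, hjJ, hv'⟩
      intro i hi j hj hij v
      by_cases h : i ∈ S <;> by_cases h' : j ∈ S <;> simp only [h, h', if_true, if_false]
      · exact hf'.2 i h j h' hij v
      · exact hmix i h j hj h' v
      · exact fun h1 h2 => hmix j h' i hi h v h2 h1
      · have hiJ : i ∈ J := by
          rcases Finset.mem_insert.1 hi with rfl | hi
          · exact absurd hS0 h
          · exact hi
        have hjJ : j ∈ J := by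
          rcases Finset.mem_insert.1 hj with rfl | hj
          · exact absurd hS0 h'
          · exact hj
        exact hf.2 i hiJ j hjJ hij v
  obtain ⟨T, hTQ, hT1, hcov', hfew'⟩ := closure hi1 hf' hmax'
  have hTS : T ⊆ S := hTQ.trans (Finset.insert_subset hi1S hJ'S)
  have hJ : J.card ≤ Fintype.card I := Finset.card_le_univ _
  have hJ' : J'.card ≤ Fintype.card I := Finset.card_le_univ _
  let U : Finset V := J.image (fun i => (f i).1) ∪ J.image (fun i => (f i).2)
  have hU : ∀ v, v ∈ U ↔ On J f v := by
    intro v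
    simp only [U, Finset.mem_union, Finset.mem_image, On, Tch]
    constructor
    · rintro (⟨i, hi, h⟩ | ⟨i, hi, h⟩)
      · exact ⟨i, hi, Or.inl h.symm⟩
      · exact ⟨i, hi, Or.inr h.symm⟩
    · rintro ⟨i, hi, h | h⟩
      · exact Or.inl ⟨i, hi, h.symm⟩
      · exact Or.inr ⟨i, hi, h.symm⟩
  refine ⟨T, (T.erase i1).image (fun i => (f' i).1), U, ?_, ?_, ?_, ?_⟩
  · have h1 := Finset.card_image_le (s := T.erase i1) (f := fun i => (f' i).1)
    have h2 := Finset.card_erase_add_one hT1
    omega
  · have := card_on_le (J := J) (f := f) U fun w hw => (hU w).1 hw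
    omega
  · intro i hi e he
    rw [hU, hU]
    exact hcov i (hTS hi) e he
  · intro u hu huC W hW
    rw [hU] at hu
    have s1 := Finset.card_filter_add_card_filter_not (s := W) (fun w => On J f w)
    have b1 := card_on_le (J := J) (f := f) (W.filter fun w => On J f w)
      fun w hw => (Finset.mem_filter.1 hw).2
    set W1 := W.filter fun w => ¬ On J f w with hW1
    have hW1m : ∀ w ∈ W1, ¬ On J f w ∧ ∃ i ∈ T, (u, w) ∈ A i := fun w hw =>
      ⟨(Finset.mem_filter.1 hw).2, hW w (Finset.mem_filter.1 hw).1⟩
    by_cases hout : On (J \ S) f u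
    · obtain ⟨j, hj, huj⟩ := hout
      have := hfew j (Finset.mem_sdiff.1 hj).1 (Finset.mem_sdiff.1 hj).2 u huj W1
        fun w hw => ⟨(hW1m w hw).1, by
          obtain ⟨i, hi, h⟩ := (hW1m w hw).2
          exact ⟨i, hTS hi, h⟩⟩
      omega
    · have s2 := Finset.card_filter_add_card_filter_not (s := W1) (fun w => On J' f' w)
      have b2 := card_on_le (J := J') (f := f') (W1.filter fun w => On J' f' w)
        fun w hw => (Finset.mem_filter.1 hw).2
      set W2 := W1.filter fun w => ¬ On J' f' w with hW2
      have hW2m : ∀ w ∈ W2, ¬ On J' f' w ∧ ∃ i ∈ T, (u, w) ∈ A' i := by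
        intro w hw
        obtain ⟨h1, h2⟩ := Finset.mem_filter.1 hw
        obtain ⟨h3, i, hi, h4⟩ := hW1m w h1
        exact ⟨h2, i, hi, h4, hu, hout, h3⟩
      by_cases hon : On J' f' u
      · obtain ⟨j, hj, huj⟩ := hon
        have hjT : j ∉ T := by
          intro hjT
          rcases huj with h | h
          · exact huC (Finset.mem_image.2
              ⟨j, Finset.mem_erase.2 ⟨fun e => hi1 (e ▸ hj), hjT⟩, h.symm⟩)
          · exact (hf'.1 j hj).2.2.2 (h ▸ hu)
        have := hfew' j hj hjT u huj W2 hW2m
        omega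
      · have hW2e : W2 = ∅ := by
          rw [Finset.eq_empty_iff_forall_notMem]
          intro w hw
          obtain ⟨h1, i, hi, h2⟩ := hW2m w hw
          rcases hcov' i hi _ h2 with h | h
          · exact hon h
          · exact h1 h
        rw [hW2e] at s2
        simp at s2
        omega

end Pool.Agent.P.MP_75e851_co.Few
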