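import Pool.Agent.P.MP_75e851_co.Prop

/-!
Proper edge colourings of `d`-regular bipartite multigraphs with classes of size
`d + log d - O(log log d)` and no rainbow matching. The graph is a disjoint union of cycles of
length `2 n` with multiple edges, one for each point of a set system whose cover number is large.
Each member of the system gives a colour that consists of every second edge of the cycles at its
points; the other edges are coloured cyclically.
-/

set_option autoImplicit false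

namespace Pool.Agent.P.MP_75e851_co.Lg

open Finset Function

/-- A proper colouring of a `d`-regular bipartite multigraph with classes of size at least `t` and
no rainbow matching. -/
def Bad (d t : ℕ) : Prop :=
  ∃ (A B G : Type) (_ : Finite G) (l : G → A) (r : G → B) (m : ℕ) (E : Fin m → Set G),
    (∀ a, {x | l x = a}.ncard = d) ∧ (∀ b, {x | r x = b}.ncard = d) ∧
    (∀ x, ∃! i, x ∈ E i) ∧ (∀ i, (E i).InjOn l ∧ (E i).InjOn r) ∧
    (∀ i, t ≤ (E i).ncard) ∧
    ¬ ∃ f : Fin m → G, (∀ i, f i ∈ E i) ∧ Injective (l ∘ f) ∧ Injective (r ∘ f)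

theorem bad_of {A G C : Type} [Finite G] [Fintype C] {d t : ℕ} (l r : G → A) (c : G → C)
    (hl : ∀ a, {x | l x = a}.ncard = d) (hr : ∀ a, {x | r x = a}.ncard = d)
    (il : ∀ i, {x | c x = i}.InjOn l) (ir : ∀ i, {x | c x = i}.InjOn r)
    (hs : ∀ i, t ≤ {x | c x = i}.ncard)
    (hn : ∀ f : C → G, (∀ i, c (f i) = i) → Injective (l ∘ f) → Injective (r ∘ f) → False) :
    Bad d t := by
  have q := Fintype.equivFin C
  refine ⟨A, A, G, inferInstance, l, r, _, fun i => {x | c x = q.symm i}, hl, hr,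
    fun x => ⟨q (c x), (q.symm_apply_apply _).symm, fun i h => ?_⟩,
    fun i => ⟨il _, ir _⟩, fun i => hs _, fun ⟨f, h1, h2, h3⟩ => ?_⟩
  · exact (q.eq_symm_apply.1 h).symm
  · exact hn (f ∘ q) (fun c => (h1 (q c)).trans (q.symm_apply_apply c))
      (h2.comp q.injective) (h3.comp q.injective)

theorem small (e : ℕ) : Bad (e + 3) (e + 5) :=
  bad_of Prod.fst rt col deg_l deg_r inj_l inj_r size fun _ => no_rainbow

/-- Cyclic colouring of a list in which the fibres are intervals. -/
theorem colour {W K : Type} [Fintype W] [Fintype K] {m t : ℕ} (P : Finset (W × K)) (hm : 0 < m)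
    (hd : Fintype.card K ≤ m) (h : m * t ≤ #P) :
    ∃ c : W × K → Fin m, (∀ x ∈ P, ∀ y ∈ P, x.1 = y.1 → c x = c y → x = y) ∧
      ∀ i, t ≤ #{x ∈ P | c x = i} := by
  classical
  let e : W × K → ℕ := fun x => finProdFinEquiv (Fintype.equivFin W x.1, Fintype.equivFin K x.2)
  have he : Injective e := fun x y h => by
    simpa [Prod.ext_iff] using finProdFinEquiv.injective (Fin.ext h)
  let p : ℕ → Prop := (· ∈ P.image e)
  have key : ∀ x ∈ P, ∀ y, x.1 = y.1 → e x < e y →
      Nat.count p (e x) % m ≠ Nat.count p (e y) % m := fun x hx y h1 h2 h3 => by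
    have a1 := Nat.count_strict_mono (p := p) (mem_image_of_mem e hx) h2
    obtain ⟨s, hs⟩ := Nat.exists_eq_add_of_le h2.le
    have a2 : s < m := by
      have := (Fintype.equivFin K y.2).2
      simp only [e, finProdFinEquiv_apply_val, h1] at hs
      omega
    have a3 : Nat.count p (e y) ≤ Nat.count p (e x) + s := by
      rw [hs, Nat.count_add]
      exact Nat.add_le_add_left (Nat.count_le _) _
    have := Nat.le_of_dvd (by omega) ((Nat.modEq_iff_dvd' a1.le).1 h3)
    omega
  refine ⟨fun x => ⟨Nat.count p (e x) % m, Nat.mod_lt _ hm⟩, fun x hx y hy h1 h2 => ?_, fun i => ?_⟩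
  · rcases lt_trichotomy (e x) (e y) with a | a | a
    · exact absurd (Fin.ext_iff.1 h2) (key x hx y h1 a)
    · exact he a
    · exact absurd (Fin.ext_iff.1 h2).symm (key y hy x h1.symm a)
  · refine (card_range t).ge.trans (card_le_card_of_surjOn (fun x => Nat.count p (e x) / m)
      fun s hs => ?_)
    have hf : {i | p i}.Finite := (P.image e).finite_toSet
    have a1 : i + m * s < hf.toFinset.card := by
      have : hf.toFinset = P.image e := by ext; simp [p]
      rw [this, card_image_of_injective _ he]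
      have := Nat.mul_le_mul_left m (mem_range.1 hs)
      have := i.2
      rw [Nat.mul_succ] at *
      omega
    obtain ⟨x, hx, a2⟩ := mem_image.1 (Nat.nth_mem_of_lt_card hf a1)
    have a3 := Nat.count_nth_of_lt_card_finite hf a1
    rw [← a2] at a3
    refine ⟨x, mem_filter.2 ⟨hx, Fin.ext ?_⟩, ?_⟩
    · simp only [a3, Nat.add_mul_mod_self_left, Nat.mod_eq_of_lt i.2]
    · simp only [a3, Nat.add_mul_div_left _ _ hm, Nat.div_eq_of_lt i.2, zero_add]

/-- The graph of a set system. -/
theorem build {β γ : Type} [Fintype β] [Fintype γ] (S : γ → Finset β) {N V j n d t u : ℕ}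
    (hN : Fintype.card β = N) (hV : Fintype.card γ = V) (hS : ∀ c, #(S c) = j)
    (hU : ∀ U : Finset β, #U ≤ u → ∃ c, Disjoint (S c) U) (hn : V < n) (hd : V ≤ d)
    (ht : t ≤ j * n) (t0 : 0 < t) (d0 : 0 < d) (h1 : d * t + V * (j * n) ≤ N * n * d)
    (h2 : N * n * t + V * (j * n) ≤ N * n * d + (V + u) * t) : Bad d t := by
  classical
  have : NeZero n := ⟨by omega⟩
  let K := γ ⊕ Fin (d - V)
  have hK : Fintype.card K = d := by simp [K, hV, hd]
  have hW : Fintype.card (β × ZMod n) = N * n := by simp [hN]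
  let R : β → K → Prop := fun b k => ∃ c, k = .inl c ∧ b ∈ S c
  let F : γ → Finset ((β × ZMod n) × K) := fun c => (S c ×ˢ univ) ×ˢ {.inl c}
  have hF : ∀ c, #(F c) = j * n := fun c => by simp [F, hS]
  have mF : ∀ c x, x ∈ F c ↔ x.2 = .inl c ∧ x.1.1 ∈ S c := fun c x => by
    simp only [F, mem_product, mem_univ, mem_singleton, and_true]
    exact and_comm
  let P : Finset ((β × ZMod n) × K) := {x | ¬ R x.1.1 x.2}
  have hP : N * n * d ≤ #P + V * (j * n) := by
    rw [← hW, ← hK, ← Fintype.card_prod]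
    refine le_trans (card_le_card (t := P ∪ univ.biUnion F) fun x _ => ?_)
      ((card_union_le _ _).trans (Nat.add_le_add_left ((card_biUnion_le_card_mul _ _ _
        fun c _ => (hF c).le).trans_eq (by rw [card_univ, hV])) _))
    by_cases h : R x.1.1 x.2
    · obtain ⟨c, h⟩ := h
      exact mem_union_right _ (mem_biUnion.2 ⟨c, mem_univ _, (mF c x).2 h⟩)
    · exact mem_union_left _ (mem_filter.2 ⟨mem_univ _, h⟩)
  have hm : d ≤ #P / t := (Nat.le_div_iff_mul_le t0).2 (by omega)
  have hm' : #P < (#P / t + 1) * t := mul_comm t _ ▸ Nat.lt_mul_div_succ _ t0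
  obtain ⟨c, c1, c2⟩ := colour P (t := t) (d0.trans_le hm) (hK.trans_le hm) (Nat.div_mul_le_self _ _)
  generalize #P / t = m at *
  let r : (β × ZMod n) × K → β × ZMod n := fun x =>
    if R x.1.1 x.2 then (x.1.1, x.1.2 + 1) else x.1
  let cl : (β × ZMod n) × K → γ ⊕ Fin m := fun x =>
    if h : R x.1.1 x.2 then .inl h.choose else .inr (c x)
  have e1 : ∀ i, {x | cl x = .inl i} = F i := fun i => Set.ext fun x => by
    simp only [cl, Set.mem_ofPred_eq, mem_coe, mF]
    split_ifs with h
    · have := h.choose_spec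
      refine ⟨fun e => Sum.inl_injective e ▸ this, fun e => this.1.symm.trans e.1 |> fun e => ?_⟩
      rw [Sum.inl_injective e]
    · exact ⟨False.elim, fun e => absurd ⟨i, e⟩ h⟩
  have e2 : ∀ i, {x | cl x = .inr i} = ({x ∈ P | c x = i} : Finset _) := fun i =>
    Set.ext fun x => by
      simp only [cl, P, Set.mem_ofPred_eq, mem_coe, mem_filter, mem_univ, true_and]
      split_ifs with h <;> simp [h]
  have il : ∀ i, {x | cl x = i}.InjOn Prod.fst := by
    rintro (i | i) x hx y hy h
    · rw [e1] at hx hy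
      exact Prod.ext h (((mF i x).1 hx).1.trans ((mF i y).1 hy).1.symm)
    · rw [e2] at hx hy
      obtain ⟨a, b⟩ := mem_filter.1 hx
      exact c1 x a y (mem_filter.1 hy).1 h (b.trans (mem_filter.1 hy).2.symm)
  refine bad_of Prod.fst r cl (fun a => ?_) (fun a => ?_) il ?_ ?_ fun f f1 f2 f3 => ?_
  · have : {x : (β × ZMod n) × K | x.1 = a} = Set.range fun k => (a, k) := by
      ext ⟨v, k⟩
      simp [eq_comm]
    rw [this, Set.ncard_range_of_injective fun _ _ h => (Prod.ext_iff.1 h).2,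
      Nat.card_eq_fintype_card, hK]
  · have : {x | r x = a} = Set.range fun k => (if R a.1 k then (a.1, a.2 - 1) else a, k) := by
      ext ⟨⟨b, x⟩, k⟩
      obtain ⟨b', y⟩ := a
      simp only [r, Set.mem_ofPred_eq, Set.mem_range, Prod.mk.injEq, exists_eq_right]
      constructor
      · intro h
        split_ifs at h with g <;> cases h <;> simp [g]
      · intro h
        split_ifs at h with g <;> cases h <;> simp [g]
    rw [this, Set.ncard_range_of_injective fun _ _ h => (Prod.ext_iff.1 h).2,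
      Nat.card_eq_fintype_card, hK]
  · rintro (i | i) x hx y hy h <;> refine il _ hx hy ?_
    · rw [e1] at hx hy
      simp only [r, if_pos (show R x.1.1 x.2 from ⟨i, (mF i x).1 hx⟩),
        if_pos (show R y.1.1 y.2 from ⟨i, (mF i y).1 hy⟩), Prod.mk.injEq, add_left_inj] at h
      exact Prod.ext h.1 h.2
    · rw [e2] at hx hy
      simpa only [r, if_neg (mem_filter.1 (mem_filter.1 hx).1).2,
        if_neg (mem_filter.1 (mem_filter.1 hy).1).2] using h
  · rintro (i | i)
    · rw [e1, Set.ncard_coe_finset, hF]; exact ht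
    · rw [e2, Set.ncard_coe_finset]; exact c2 i
  have f4 : ∀ i, f (.inl i) ∈ F i := fun i => (e1 i).le (f1 (.inl i))
  let U : Finset β := univ.image fun i => (f (.inl i)).1.1
  have hu : u < #U := not_le.1 fun h => by
    obtain ⟨i, hi⟩ := hU U h
    exact disjoint_left.1 hi ((mF i _).1 (f4 i)).2 (mem_image_of_mem _ (mem_univ i))
  have miss : ∀ b ∈ U, ∃ x, ∀ i, (f i).1 ≠ (b, x) := fun b hb => by
    by_contra! h
    choose g hg using h
    obtain ⟨i, -, hi⟩ := mem_image.1 hb
    have s : ∀ x, R b (f (g x)).2 → R b (f (g (x + 1))).2 := fun x hx => by_contra fun hy => by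
      have : g x = g (x + 1) := f3 (by simp only [comp, r, hg, hx, hy, if_true, if_false])
      exact hy (this ▸ hx)
    have s0 : ∀ k : ℕ, R b (f (g ((f (.inl i)).1.2 + k))).2 := fun k => by
      induction k with
      | zero =>
        have : g (f (.inl i)).1.2 = .inl i := f2 ((hg _).trans (Prod.ext hi.symm rfl))
        rw [Nat.cast_zero, add_zero, this]
        exact ⟨i, hi ▸ (mF i _).1 (f4 i)⟩
      | succ k ih => simpa only [Nat.cast_succ, add_assoc] using s _ ih
    have s1 : ∀ x, ∃ a, g x = .inl a := fun x => by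
      have := s0 (x - (f (.inl i)).1.2).val
      rw [ZMod.natCast_zmod_val, add_sub_cancel] at this
      exact ⟨_, (f1 (g x)).symm.trans (dif_pos (hg x ▸ this))⟩
    choose a ha using s1
    have := Fintype.card_le_of_injective a fun x y h =>
      (Prod.ext_iff.1 ((hg x).symm.trans (by rw [ha, h, ← ha, hg]))).2
    rw [ZMod.card] at this
    omega
  choose! g hg using miss
  have := Fintype.card_le_of_injective
    (Sum.elim (Prod.fst ∘ f) fun b : U => (b.1, g b)) (f2.sumElim
      (fun _ _ h => Subtype.ext (Prod.ext_iff.1 h).1) fun i b => hg b b.2 i)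
  simp only [Fintype.card_sum, Fintype.card_fin, Fintype.card_coe, hW, hV] at this
  nlinarith [Nat.mul_le_mul_right t (show V + u + (m + 1) ≤ N * n by omega)]

/-- Greedy covering. -/
theorem greedy {α ι : Type} (X : Finset α) (Y : Finset ι) (R : α → ι → Prop)
    [∀ x y, Decidable (R x y)] {p : ℝ} (hp : p ≤ 1) (hY : Y.Nonempty)
    (h : ∀ x ∈ X, p * #Y ≤ #{y ∈ Y | R x y}) (V : ℕ) : ∃ S : Fin V → ι, (∀ i, S i ∈ Y) ∧
      (#{x ∈ X | ∀ i, ¬ R x (S i)} : ℝ) ≤ #X * (1 - p) ^ V := by
  induction V with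
  | zero => exact ⟨Fin.elim0, fun i => i.elim0, by simp⟩
  | succ V ih =>
    obtain ⟨S, h1, h2⟩ := ih
    generalize hZ : ({x ∈ X | ∀ i, ¬ R x (S i)} : Finset α) = Z at h2
    obtain ⟨y, hy, h3⟩ := exists_le_of_sum_le hY (f := fun y => (#{x ∈ Z | ¬ R x y} : ℝ))
      (g := fun _ => #Z * (1 - p)) (by
        simp only [card_filter, Nat.cast_sum]
        rw [sum_comm, sum_const, nsmul_eq_mul, mul_left_comm, ← nsmul_eq_mul]
        refine sum_le_card_nsmul _ _ _ fun x hx => ?_
        have a1 := h x (mem_filter.1 (hZ ▸ hx)).1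
        have a2 := card_filter_add_card_filter_not (s := Y) (R x)
        rw [← Nat.cast_sum, ← card_filter]
        rw [← a2] at a1 ⊢
        push_cast at a1 ⊢
        linarith)
    refine ⟨Fin.cons y S, Fin.forall_fin_succ.2 ⟨hy, h1⟩, le_trans (le_of_eq ?_) (h3.trans ?_)⟩
    · rw [← hZ, filter_filter]
      simp only [Fin.forall_fin_succ, Fin.cons_zero, Fin.cons_succ, and_comm]
    · rw [pow_succ, ← mul_assoc]
      exact mul_le_mul_of_nonneg_right h2 (sub_nonneg.2 hp)

theorem ratio (k : ℕ) :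
    Real.exp (-(k + 4)) * (k + 2 : ℝ) ^ (k + 2) ^ 2 ≤ (k + 1 : ℝ) ^ (k + 2) ^ 2 := by
  have h0 : (0 : ℝ) < k + 1 := by positivity
  have h1 : (k + 2 : ℝ) ≤ (k + 1) * Real.exp (1 / (k + 1)) := by
    have := mul_le_mul_of_nonneg_left (Real.add_one_le_exp (1 / (k + 1))) h0.le
    rw [mul_add, mul_one_div_cancel h0.ne'] at this
    linarith
  refine (mul_le_mul_of_nonneg_left (pow_le_pow_left₀ (by positivity) h1 _)
    (Real.exp_pos _).le).trans ?_
  rw [mul_pow, ← Real.exp_nat_mul, mul_left_comm, ← Real.exp_add]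
  refine mul_le_of_le_one_right (by positivity) (Real.exp_le_one_iff.2 ?_)
  rw [neg_add_le_iff_le_add, add_zero, mul_one_div, div_le_iff₀ h0]
  push_cast
  nlinarith

theorem avoid {k j : ℕ} (hj : j = (k + 2) ^ 2) (U : Finset (Fin (j * j))) (hU : #U ≤ j * k + 2) :
    Real.exp (-(k + 4)) * #(powersetCard j (univ : Finset (Fin (j * j)))) ≤
      #{y ∈ powersetCard j univ | Disjoint y U} := by
  have j0 : 0 < j := by rw [hj]; positivity
  have a1 : ({y ∈ powersetCard j univ | Disjoint y U} : Finset _) = powersetCard j Uᶜ := by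
    ext y
    simp [mem_powersetCard, subset_compl_iff_disjoint_right, and_comm]
  have a2 : j * (k + 2) * (k + 1) ≤ j * j - #U + 1 - j := by
    have : j * j = j * (k + 2) * (k + 1) + j * k + 2 * j := by nth_rw 2 [hj]; ring
    omega
  rw [a1, card_powersetCard, card_powersetCard, card_compl, card_univ, Fintype.card_fin]
  refine le_trans (mul_le_mul_of_nonneg_left (Nat.choose_le_pow_div _ _) (Real.exp_pos _).le)
    (le_trans ?_ (Nat.pow_le_choose _ _))
  rw [← mul_div_assoc]
  refine div_le_div_of_nonneg_right (le_trans ?_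
    (pow_le_pow_left₀ (by positivity) (Nat.cast_le.2 a2) _)) (by positivity)
  rw [show j * j = j * (k + 2) * (k + 2) by nth_rw 2 [hj]; ring]
  push_cast
  rw [mul_pow _ (k + 2 : ℝ) j, mul_pow _ (k + 1 : ℝ), mul_left_comm]
  exact mul_le_mul_of_nonneg_left (hj ▸ ratio k) (by positivity)

/-- A small family of sets with a large cover number. -/
theorem family {k j V : ℕ} (hj : j = (k + 2) ^ 2) (hV : j * j * Real.exp (k + 4) ≤ V) :
    ∃ S : Fin V → Finset (Fin (j * j)), (∀ c, #(S c) = j) ∧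
      ∀ U : Finset (Fin (j * j)), #U ≤ j * k + 2 → ∃ c, Disjoint (S c) U := by
  have j0 : 0 < j := by rw [hj]; positivity
  have p1 : Real.exp (-(k + 4)) ≤ 1 := Real.exp_le_one_iff.2 (neg_nonpos.2 (by positivity))
  obtain ⟨S, h1, h2⟩ := greedy ({U | #U ≤ j * k + 2} : Finset (Finset (Fin (j * j))))
    (powersetCard j univ) (fun U y => Disjoint y U) p1
    (powersetCard_nonempty.2 (by simpa using Nat.le_mul_self j))
    (fun U hU => avoid hj U (mem_filter.1 hU).2) V
  refine ⟨S, fun c => (mem_powersetCard.1 (h1 c)).2, fun U hU => by_contra fun h => ?_⟩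
  have a1 : 1 ≤ #{U ∈ ({U | #U ≤ j * k + 2} : Finset (Finset (Fin (j * j)))) |
      ∀ i, ¬ Disjoint (S i) U} :=
    card_pos.2 ⟨U, mem_filter.2 ⟨mem_filter.2 ⟨mem_univ _, hU⟩, not_exists.1 h⟩⟩
  have a2 : #({U | #U ≤ j * k + 2} : Finset (Finset (Fin (j * j)))) ≤ 2 ^ (j * j) :=
    (card_le_univ _).trans_eq (by simp)
  have a3 : (1 - Real.exp (-(k + 4))) ^ V ≤ Real.exp (-1) ^ (j * j) := by
    refine (pow_le_pow_left₀ (sub_nonneg.2 p1) (Real.one_sub_le_exp_neg _) _).trans ?_
    rw [← Real.exp_nat_mul, ← Real.exp_nat_mul, Real.exp_le_exp, Real.exp_neg, mul_neg, mul_neg,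
      neg_le_neg_iff, mul_one, le_mul_inv_iff₀ (Real.exp_pos _)]
    exact_mod_cast hV
  have a4 : (2 * Real.exp (-1)) ^ (j * j) < 1 := by
    refine pow_lt_one₀ (by positivity) ?_ (by positivity)
    rw [Real.exp_neg, mul_inv_lt_iff₀ (Real.exp_pos _), one_mul]
    linarith [Real.add_one_lt_exp one_ne_zero]
  rw [mul_pow] at a4
  exact a4.not_ge ((Nat.one_le_cast.2 a1).trans (h2.trans (mul_le_mul (by exact_mod_cast a2) a3
    (pow_nonneg (sub_nonneg.2 p1) _) (by positivity))))

theorem big {k d : ℕ} (h : (k + 2 : ℝ) ^ 6 * Real.exp (k + 5) ≤ d) : Bad d (d + k) := by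
  obtain ⟨j, hj⟩ : ∃ j, j = (k + 2) ^ 2 := ⟨_, rfl⟩
  have j2 : k + 2 ≤ j := hj ▸ Nat.le_self_pow two_ne_zero _
  have j0 : (0 : ℝ) < j := Nat.cast_pos.2 (by omega)
  have e1 : 1 ≤ Real.exp (k + 4) := Real.one_le_exp (by positivity)
  have h1 : j * (j * j * Real.exp (k + 4)) * 2 ≤ d := by
    refine le_trans ?_ h
    rw [show (k + 5 : ℝ) = k + 4 + 1 by ring, Real.exp_add _ 1, ← mul_assoc _ _ (Real.exp 1)]
    refine mul_le_mul (le_of_eq ?_) (by linarith [Real.add_one_le_exp 1]) zero_le_two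
      (by positivity)
    rw [hj]
    push_cast
    ring
  have h2 : j * (j * j) ≤ d := by
    have : (j * (j * j) : ℝ) ≤ d := by nlinarith [mul_pos j0 (mul_pos j0 j0)]
    exact_mod_cast this
  have h3 : j * j * Real.exp (k + 4) ≤ (d / j : ℕ) := by
    have a1 : (d : ℝ) < j * ((d / j : ℕ) + 1) := by
      exact_mod_cast Nat.lt_mul_div_succ d (show 0 < j by omega)
    have a2 : (1 : ℝ) ≤ j * j * Real.exp (k + 4) :=
      one_le_mul_of_one_le_of_one_le (by exact_mod_cast Nat.mul_pos (by omega) (by omega)) e1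
    have := lt_of_mul_lt_mul_left ((mul_assoc _ _ _).ge.trans_lt (h1.trans_lt a1)) j0.le
    linarith
  obtain ⟨S, s1, s2⟩ := family hj h3
  have a1 := Nat.lt_mul_div_succ (d + k) (show 0 < j by omega)
  have a2 := Nat.mul_div_le (d + k) j
  have a3 := Nat.mul_div_le d j
  have a4 := Nat.div_le_self d j
  have d0 : 0 < d := lt_of_lt_of_le (Nat.mul_pos (by omega) (Nat.mul_pos (by omega) (by omega))) h2
  have a5 : j * ((d + k) / j + 1) ≤ d + k + j := by rw [mul_add]; omega
  have a6 : d / j < (d + k) / j + 1 :=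
    Nat.lt_succ_of_le (Nat.div_le_div_right (Nat.le_add_right d k))
  generalize (d + k) / j + 1 = n at *
  generalize d / j = V at *
  refine build S (Fintype.card_fin _) (Fintype.card_fin _) s1 s2 a6 a4 a1.le (by omega) d0 ?_ ?_
  · nlinarith [Nat.mul_le_mul_left d a1.le, Nat.mul_le_mul_right (j * n) a4,
      Nat.mul_le_mul_right (j * n * d) (show 2 ≤ j by omega)]
  · nlinarith [Nat.mul_le_mul_left (j * k + V) a5,
      Nat.mul_le_mul_left (j * j) (show k ≤ j by omega)]

theorem main {d : ℕ} (hd : 3 ≤ d) : ∃ t : ℕ, d + 2 ≤ t ∧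
    d + Real.log d - 6 * Real.log (Real.log d) - 6 ≤ t ∧ Bad d t := by
  obtain ⟨k, hk⟩ : ∃ k, k = ⌈Real.log d - 6 * Real.log (Real.log d) - 6⌉₊ := ⟨_, rfl⟩
  have h1 : Real.log d - 6 * Real.log (Real.log d) - 6 ≤ k := hk ▸ Nat.le_ceil _
  rcases le_or_gt k 2 with h | h
  · obtain ⟨e, rfl⟩ : ∃ e, d = e + 3 := ⟨d - 3, by omega⟩
    refine ⟨_, le_rfl, ?_, small e⟩
    have : (k : ℝ) ≤ 2 := by exact_mod_cast h
    push_cast at h1 ⊢
    linarith
  refine ⟨d + k, by omega, by push_cast; linarith, big ?_⟩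
  have d0 : (3 : ℝ) ≤ d := by exact_mod_cast hd
  have h2 : (k : ℝ) < Real.log d - 6 * Real.log (Real.log d) - 6 + 1 :=
    hk ▸ Nat.ceil_lt_add_one (Nat.ceil_pos.1 (hk ▸ by omega)).le
  have h3 : 1 ≤ Real.log d := by
    rw [Real.le_log_iff_exp_le (by linarith)]
    linarith [Real.exp_one_lt_three]
  have h4 := Real.log_nonneg h3
  calc (k + 2 : ℝ) ^ 6 * Real.exp (k + 5)
      ≤ Real.log d ^ 6 * Real.exp (Real.log d - (6 : ℕ) * Real.log (Real.log d)) := by
        gcongr <;> push_cast <;> linarith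
    _ = (d : ℝ) := by
        rw [Real.exp_sub, Real.exp_nat_mul, Real.exp_log (by linarith), Real.exp_log (by linarith),
          mul_div_cancel₀ _ (by positivity)]

end Pool.Agent.P.MP_75e851_co.Lg
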