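import Mathlib

/-!
A proper edge colouring of a `d`-regular bipartite multigraph (`d = e + 3`) with colour classes of
size at least `d + 2` and no rainbow matching. The graph is a disjoint union of even cycles whose
edges have alternately multiplicity `d - 1` and `1`. Both sides are copies of `V e`; the edge
`(v, k)` joins `v` to `v` for `k ≠ 0` and `v` to the next vertex of its cycle for `k = 0`.
-/

set_option autoImplicit false

namespace Pool.Agent.P.MP_75e851_co

open Function

/-- Positions on the cycles of the four levels. -/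
inductive V (e : ℕ) : Type
  | D (i : Fin (e + 3)) (t : Fin 2)
  | Q (i : Fin (e + 3)) (t : Fin (e + 2))
  | T (i : Fin (e + 3)) (j : Fin (e + 2)) (t : Fin 2)
  | L (i : Fin (e + 3)) (j : Fin (e + 2)) (t : Fin (e + 3))
  deriving DecidableEq, Fintype

/-- Colours. -/
inductive C (e : ℕ) : Type
  | Z
  | A (i : Fin (e + 3)) (j : Fin (e + 2))
  | K (i : Fin (e + 3)) (j : Fin (e + 2)) (k : Fin (e + 3))
  deriving DecidableEq, Fintype

variable {e : ℕ}

/-- The next position on the cycle. -/
def nxt : V e → V e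
  | .D i t => .D i (t + 1)
  | .Q i t => .Q i (t + 1)
  | .T i j t => .T i j (t + 1)
  | .L i j t => .L i j (t + 1)

/-- The second end of an edge. -/
def rt (x : V e × Fin (e + 3)) : V e := if x.2 = 0 then nxt x.1 else x.1

/-- The colour of an edge. -/
def col : V e × Fin (e + 3) → C e
  | (.D i t, k) => if h : k = 0 then .Z else if t = 0 then .A i (k.pred h)
      else if k = 2 then .K i 0 0 else .K i (k.pred h) 1
  | (.Q i t, k) => if h : k = Fin.last _ then (if t = 0 then .K i 1 1 else .K i t 0)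
      else .A i (k.castPred h)
  | (.T i j t, k) => if k = 0 then .A i j else if t = 1 ∧ k = 1 then .K i j 0 else .K i j k
  | (.L i j _, k) => .K i j k

theorem succ_two (j : Fin (e + 2)) : j.succ = 2 ↔ j = 1 := Fin.succ_inj (b := 1)

theorem two_ne : (2 : Fin (e + 3)) ≠ 0 := Fin.succ_ne_zero (1 : Fin (e + 2))

theorem nxt_inj : Injective (nxt : V e → V e) := by
  rintro (_ | _ | _ | _) (_ | _ | _ | _) h <;> simp_all [nxt]

theorem deg_l (a : V e) : {x : V e × Fin (e + 3) | x.1 = a}.ncard = e + 3 := by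
  have : {x : V e × Fin (e + 3) | x.1 = a} = Set.range fun k => (a, k) := by
    ext ⟨v, k⟩
    simp [eq_comm]
  rw [this, Set.ncard_range_of_injective fun _ _ h => (Prod.ext_iff.1 h).2]
  simp

theorem deg_r (b : V e) : {x : V e × Fin (e + 3) | rt x = b}.ncard = e + 3 := by
  obtain ⟨a, rfl⟩ := Finite.surjective_of_injective nxt_inj b
  have : {x : V e × Fin (e + 3) | rt x = nxt a} =
      Set.range fun k => (if k = 0 then a else nxt a, k) := by
    ext ⟨v, k⟩
    by_cases h : k = 0 <;> simp [rt, h, nxt_inj.eq_iff, eq_comm]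
  rw [this, Set.ncard_range_of_injective fun _ _ h => (Prod.ext_iff.1 h).2]
  simp

theorem col_inj (v : V e) : Injective fun k => col (v, k) := by
  intro k k' h
  rcases v with _ | _ | _ | _ <;> simp only [col] at h <;> (try split_ifs at h) <;> simp_all

theorem col_nxt (v : V e) {k : Fin (e + 3)} (h : k ≠ 0) : col (v, 0) ≠ col (nxt v, k) := by
  rcases v with _ | _ | _ | _ <;> simp only [col, nxt] <;> (try split_ifs) <;> simp_all [eq_comm]

theorem inj_l (c : C e) : {x | col x = c}.InjOn Prod.fst := by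
  rintro ⟨v, k⟩ h ⟨w, k'⟩ h' (rfl : v = w)
  rw [col_inj v (h.trans h'.symm)]

theorem inj_r (c : C e) : {x | col x = c}.InjOn rt := by
  rintro ⟨v, k⟩ h ⟨w, k'⟩ h' g
  have h0 : col (v, k) = col (w, k') := h.trans h'.symm
  simp only [rt] at g
  split_ifs at g with a b b
  · rw [nxt_inj g, a, b]
  · exact absurd (a ▸ g ▸ h0) (col_nxt v b)
  · exact absurd (b ▸ g ▸ h0.symm) (col_nxt w a)
  · exact inj_l c h h' g

theorem le_of_inj {ι : Type} [Fintype ι] {c : C e} (g : ι → V e × Fin (e + 3))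
    (h : Injective fun t => (g t).1) (h' : ∀ t, col (g t) = c) (h2 : e + 5 ≤ Fintype.card ι) :
    e + 5 ≤ {x | col x = c}.ncard := by
  refine h2.trans ?_
  rw [← Nat.card_eq_fintype_card, ← Set.ncard_range_of_injective (Injective.of_comp (f := Prod.fst) h)]
  exact Set.ncard_le_ncard (Set.range_subset_iff.2 h')

theorem size (c : C e) : e + 5 ≤ {x | col x = c}.ncard := by
  rcases c with _ | ⟨i, j⟩ | ⟨i, j, k⟩
  · refine le_of_inj (fun p : Fin (e + 3) × Fin 2 => (.D p.1 p.2, 0)) ?_ ?_ ?_
    · rintro ⟨_, _⟩ ⟨_, _⟩ h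
      simpa using h
    · simp [col]
    · simp only [Fintype.card_prod, Fintype.card_fin]
      omega
  · refine le_of_inj (ι := Fin (e + 2) ⊕ Option (Fin 2)) (Sum.elim (fun t => (.Q i t, j.castSucc))
      fun o => o.elim (.D i 0, j.succ) fun t => (.T i j t, 0)) ?_ ?_ (by simp)
    · rintro (_ | _ | _) (_ | _ | _) h <;> simp_all
    · rintro (_ | _ | _) <;> simp [col]
  · refine le_of_inj (ι := Fin (e + 3) ⊕ Bool) (Sum.elim (fun t => (.L i j t, k)) fun o =>
      if k = 0 then (if o then (.T i j 1, 1) else if j = 0 then (.D i 1, 2) else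
        (.Q i j, Fin.last _))
      else if o then (.T i j 0, k) else if k = 1 then (if j = 1 then (.Q i 0, Fin.last _) else
        (.D i 1, j.succ)) else (.T i j 1, k)) ?_ ?_ (by simp)
    · rintro (_ | _ | _) (_ | _ | _) h <;> simp at h ⊢ <;> (try split_ifs at h) <;> simp_all
    · rintro (_ | _ | _) <;> simp only [Sum.elim_inl, Sum.elim_inr] <;> (try split_ifs) <;>
        simp_all [col, succ_two, two_ne]

/-- No perfect matching of a cycle uses exactly one edge with `k = 0`. -/
theorem block {n : ℕ} {K : Type} [Zero K] [DecidableEq K] (g : Fin (n + 2) → Fin (n + 2) × K)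
    (h0 : ∀ j, (g j).2 = 0 ↔ j = 0) (h1 : Injective fun j => (g j).1)
    (h2 : Injective fun j => if (g j).2 = 0 then (g j).1 + 1 else (g j).1) : False := by
  obtain ⟨j, hj⟩ := Finite.surjective_of_injective h1 ((g 0).1 + 1)
  have h3 : j ≠ 0 := by
    rintro rfl
    simp at hj
  exact h3 (h2 (by simp only [h0, h3, if_true, if_false]; exact hj))

theorem inv_A {x : V e × Fin (e + 3)} {i : Fin (e + 3)} {j : Fin (e + 2)} (h : col x = .A i j) :
    (∃ t k, x = (.D i t, k) ∧ k ≠ 0) ∨ (∃ t k, x = (.Q i t, k) ∧ (k = 0 ↔ j = 0)) ∨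
      ∃ t, x = (.T i j t, 0) := by
  rcases x with ⟨_ | _ | _ | _, k⟩ <;> simp only [col] at h <;> (try split_ifs at h) <;>
    cases h <;> simp_all

theorem inv_K {x : V e × Fin (e + 3)} {i k : Fin (e + 3)} {j : Fin (e + 2)}
    (h : col x = .K i j k) :
    (∃ t k, x = (.D i t, k) ∧ k ≠ 0) ∨ (∃ t k, x = (.Q i t, k) ∧ (k = 0 ↔ j = 0)) ∨
      (∃ t k, x = (.T i j t, k) ∧ k ≠ 0) ∨ ∃ t, x = (.L i j t, k) := by
  rcases x with ⟨_ | _ | _ | _, k⟩ <;> simp only [col] at h <;> (try split_ifs at h) <;>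
    cases h <;> simp_all

section
variable {f : C e → V e × Fin (e + 3)} (hc : ∀ c, col (f c) = c)
  (hl : Injective fun c => (f c).1) (hr : Injective fun c => rt (f c))
include hc hl hr

omit hc in
theorem two_cyc {c c' : C e} {v : Fin 2 → V e} (hv : ∀ t, nxt (v t) = v (t + 1)) {t t' : Fin 2}
    {k : Fin (e + 3)} (h : f c = (v t, 0)) (h' : f c' = (v t', k)) : k = 0 := by
  by_contra h0
  have h1 : c = c' := by
    rcases (by decide : ∀ a b : Fin 2, a = b ∨ a = b + 1) t' t with rfl | rfl
    · exact hl (by simp only [h, h'])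
    · exact hr (by simp only [h, h', rt, h0, hv, if_true, if_false])
  exact h0 (congrArg Prod.snd (h'.symm.trans (h1 ▸ h)))

theorem used {i : Fin (e + 3)} (hD : ∀ c t k, f c = (.D i t, k) → k = 0) (j : Fin (e + 2)) :
    ∃ c t k, f c = (.Q i t, k) ∧ (k = 0 ↔ j = 0) ∧ (c = .A i j ∨ ∃ k, c = .K i j k) := by
  by_contra hQ
  push Not at hQ
  obtain ⟨t0, h0⟩ : ∃ t, f (.A i j) = (.T i j t, 0) := by
    rcases inv_A (hc (.A i j)) with ⟨t, k, h, g⟩ | ⟨t, k, h, g⟩ | h
    · exact absurd (hD _ _ _ h) g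
    · exact absurd rfl (hQ _ _ _ h g).1
    · exact h
  have hL : ∀ k, ∃ t, f (.K i j k) = (.L i j t, k) := fun k => by
    rcases inv_K (hc (.K i j k)) with ⟨t, k, h, g⟩ | ⟨t, k, h, g⟩ | ⟨t, k, h, g⟩ | h
    · exact absurd (hD _ _ _ h) g
    · exact absurd rfl ((hQ _ _ _ h g).2 _)
    · exact absurd (two_cyc hl hr (v := V.T i j) (fun _ => rfl) h0 h) g
    · exact h
  choose t ht using hL
  refine block (fun k => (t k, k)) (fun _ => Iff.rfl) (fun a b h => ?_) fun a b h => ?_
  · simpa using hl (a₁ := .K i j a) (a₂ := .K i j b) (by simpa [ht] using h)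
  · refine (by simpa using · : C.K i j a = .K i j b → a = b) (hr ?_)
    simp only [ht, rt, nxt] at h ⊢
    split_ifs at h ⊢ <;> rw [h]

theorem no_rainbow : False := by
  obtain ⟨i, t0, h0⟩ : ∃ i t, f .Z = (.D i t, 0) := by
    have h1 := hc .Z
    generalize f .Z = x at *
    rcases x with ⟨_ | _ | _ | _, k⟩ <;> simp only [col] at h1 <;> (try split_ifs at h1) <;>
      simp_all
  choose c t k h1 h2 h3 using used hc hl hr fun c t k =>
    two_cyc hl hr (v := V.D i) (fun _ => rfl) h0
  have h4 : Injective c := fun a b h => by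
    rcases h3 a with p | ⟨_, p⟩ <;> rcases h3 b with q | ⟨_, q⟩ <;> simp_all
  refine block (fun j => (t j, k j)) h2 (fun a b h => h4 (hl ?_)) fun a b h => h4 (hr ?_)
  · simpa [h1] using h
  · simp only [h1, rt, nxt] at h ⊢
    split_ifs at h ⊢ <;> rw [h]

end

end Pool.Agent.P.MP_75e851_co
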