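import Mathlib

/-!
A simple bipartite graph of maximum degree 4 with 31 disjoint matchings of size 6 and no rainbow
matching. Six copies of a block: a 4-regular graph on 6 + 6 vertices with matchings of sizes
4, 4, 4, 6, 6 and no rainbow matching, and a double star whose six pendant edges fill the three
short matchings. The six centre edges of the double stars form the last matching.
-/

set_option autoImplicit false

namespace Pool.Agent.P.MP_75e851_co.Sm

open Finset Function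

/-- The five matchings of a block. The vertices `0, …, 5` form the core, `6` is the centre. -/
def blk : Fin 5 → Fin 6 → ℕ × ℕ :=
  ![![(0, 2), (3, 0), (4, 3), (5, 1), (6, 7), (7, 6)],
    ![(2, 4), (5, 2), (0, 5), (1, 3), (6, 8), (8, 6)],
    ![(4, 0), (1, 4), (2, 1), (3, 5), (6, 9), (9, 6)],
    ![(0, 0), (1, 1), (2, 2), (3, 3), (4, 4), (5, 5)],
    ![(0, 1), (1, 0), (2, 3), (3, 2), (4, 5), (5, 4)]]

/-- The `j`-th edge of the `k`-th matching. -/
def edge (k : Fin 31) (j : Fin 6) : Fin 60 × Fin 60 :=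
  if k = 30 then (Fin.ofNat 60 (10 * j + 6), Fin.ofNat 60 (10 * j + 6)) else
    (Fin.ofNat 60 (10 * (k / 5) + (blk (Fin.ofNat 5 k) j).1),
      Fin.ofNat 60 (10 * (k / 5) + (blk (Fin.ofNat 5 k) j).2))

/-- The matchings. -/
def E (k : Fin 31) : Finset (Fin 60 × Fin 60) := univ.image (edge k)

/-- The index of the `c`-th matching of the `i`-th block. -/
def ix (i : Fin 6) (c : ℕ) : Fin 31 := Fin.ofNat 31 (5 * i + c)

/-- Two edges have no common end. -/
def Ap (x y : Fin 60 × Fin 60) : Prop := x.1 ≠ y.1 ∧ x.2 ≠ y.2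

instance (x y : Fin 60 × Fin 60) : Decidable (Ap x y) := inferInstanceAs (Decidable (_ ∧ _))

theorem core : ∀ i a : Fin 6, Ap (edge (ix i 0) a) (edge 30 i) →
    ∀ b : Fin 6, Ap (edge (ix i 1) b) (edge 30 i) → Ap (edge (ix i 1) b) (edge (ix i 0) a) →
    ∀ c : Fin 6, Ap (edge (ix i 2) c) (edge 30 i) → Ap (edge (ix i 2) c) (edge (ix i 0) a) →
      Ap (edge (ix i 2) c) (edge (ix i 1) b) →
    ∀ d : Fin 6, Ap (edge (ix i 3) d) (edge (ix i 0) a) → Ap (edge (ix i 3) d) (edge (ix i 1) b) →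
      Ap (edge (ix i 3) d) (edge (ix i 2) c) →
    ∀ e : Fin 6, Ap (edge (ix i 4) e) (edge (ix i 0) a) → Ap (edge (ix i 4) e) (edge (ix i 1) b) →
      Ap (edge (ix i 4) e) (edge (ix i 2) c) → ¬ Ap (edge (ix i 4) e) (edge (ix i 3) d) := by
  decide +kernel

theorem ne : ∀ i : Fin 6, ∀ c < 5, ix i c ≠ 30 ∧ ∀ d < c, ix i c ≠ ix i d := by decide +kernel

theorem no_rainbow (f : Fin 31 → Fin 60 × Fin 60) (h : ∀ k, f k ∈ E k)
    (h1 : Injective (Prod.fst ∘ f)) (h2 : Injective (Prod.snd ∘ f)) : False := by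
  choose j hj using fun k => (mem_image.1 (h k)).imp fun _ => And.right
  have a : ∀ k l, k ≠ l → Ap (edge k (j k)) (edge l (j l)) := fun k l e => by
    rw [hj, hj]
    exact ⟨h1.ne e, h2.ne e⟩
  have p := fun c hc => a _ _ (ne (j 30) c hc).1
  have q := fun c hc d hd => a _ _ ((ne (j 30) c hc).2 d hd)
  exact core (j 30) _ (p 0 (by decide)) _ (p 1 (by decide)) (q 1 (by decide) 0 (by decide))
    _ (p 2 (by decide)) (q 2 (by decide) 0 (by decide)) (q 2 (by decide) 1 (by decide))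
    _ (q 3 (by decide) 0 (by decide)) (q 3 (by decide) 1 (by decide))
    (q 3 (by decide) 2 (by decide)) _ (q 4 (by decide) 0 (by decide))
    (q 4 (by decide) 1 (by decide)) (q 4 (by decide) 2 (by decide)) (q 4 (by decide) 3 (by decide))

theorem card_E : ∀ k, #(E k) = 6 := by decide +kernel

theorem disj : ∀ k l, k ≠ l → Disjoint (E k) (E l) := by decide +kernel

theorem inj : ∀ k a b, (edge k a).1 = (edge k b).1 ∨ (edge k a).2 = (edge k b).2 → a = b := by
  decide +kernel

theorem matching (k : Fin 31) : Set.InjOn Prod.fst (E k : Set (Fin 60 × Fin 60)) ∧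
    Set.InjOn Prod.snd (E k : Set (Fin 60 × Fin 60)) := by
  constructor <;> intro x hx y hy h <;> obtain ⟨a, -, rfl⟩ := mem_image.1 (mem_coe.1 hx) <;>
    obtain ⟨b, -, rfl⟩ := mem_image.1 (mem_coe.1 hy)
  exacts [congrArg _ (inj k a b (.inl h)), congrArg _ (inj k a b (.inr h))]

theorem deg : ∀ a, ∑ k, #{x ∈ E k | x.1 = a} ≤ 4 ∧ ∑ k, #{x ∈ E k | x.2 = a} ≤ 4 := by
  decide +kernel

theorem degree (a : Fin 60) :
    #{x ∈ univ.biUnion E | x.1 = a} ≤ 4 ∧ #{x ∈ univ.biUnion E | x.2 = a} ≤ 4 := by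
  rw [filter_biUnion, filter_biUnion]
  exact ⟨card_biUnion_le.trans (deg a).1, card_biUnion_le.trans (deg a).2⟩

end Pool.Agent.P.MP_75e851_co.Sm
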